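import Mathlib

/-!
# Dirichlet polynomials over primes

Prime number estimates of Chebyshev type, local mean squares of Dirichlet polynomials over primes,
and a bound for the supremum over a short interval.
-/

open Complex Filter Topology Polynomial MeasureTheory

namespace Pool.Agent.H3

/-! ### Prime number estimates -/

/-- number of primes with binary logarithm `n` -/
lemma card_block (n : ℕ) (hn : 1 ≤ n) (Q : Finset ℕ) (hQ : ∀ p ∈ Q, p.Prime ∧ Nat.log 2 p = n) :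
    (Q.card : ℝ) ≤ 4 * 2 ^ n / n := by
  have hθ := Chebyshev.theta_le_log4_mul_x (x := ((2 ^ (n+1) : ℕ) : ℝ)) (by positivity)
  rw [Chebyshev.theta_eq_sum_primesLE_log] at hθ
  have hsub : Q ⊆ Nat.primesLE (2^(n+1)) := by
    intro p hp
    obtain ⟨h1, h2⟩ := hQ p hp
    rw [Nat.mem_primesLE]
    refine ⟨?_, h1⟩
    have := Nat.lt_pow_succ_log_self (b := 2) (by norm_num) p
    rw [h2] at this
    exact this.le
  have h3 : (Q.card : ℝ) * (n * Real.log 2) ≤ ∑ p ∈ Nat.primesLE (2^(n+1)), Real.log p := by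
    calc (Q.card : ℝ) * (n * Real.log 2) = ∑ p ∈ Q, (n * Real.log 2) := by
          rw [Finset.sum_const, nsmul_eq_mul]
      _ ≤ ∑ p ∈ Q, Real.log p := by
          apply Finset.sum_le_sum
          intro p hp
          obtain ⟨h1, h2⟩ := hQ p hp
          rw [← Real.log_pow]
          apply Real.log_le_log (by positivity)
          have := Nat.pow_log_le_self 2 h1.ne_zero
          rw [h2] at this
          exact_mod_cast this
      _ ≤ ∑ p ∈ Nat.primesLE (2^(n+1)), Real.log p := by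
          apply Finset.sum_le_sum_of_subset_of_nonneg hsub
          intro p hp _
          rw [Nat.mem_primesLE] at hp
          exact Real.log_nonneg (by exact_mod_cast hp.2.one_le)
  have h4 : Real.log 4 = 2 * Real.log 2 := by
    rw [show (4:ℝ) = 2^2 by norm_num, Real.log_pow]; norm_num
  have hlog2 : 0 < Real.log 2 := Real.log_pos (by norm_num)
  have hn' : (0:ℝ) < n := by exact_mod_cast hn
  rw [le_div_iff₀ hn']
  have h5 := h3.trans hθ
  rw [h4] at h5
  push_cast at h5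
  have h6 : (Q.card : ℝ) * n * Real.log 2 ≤ (4 * 2^n) * Real.log 2 := by
    rw [pow_succ] at h5
    linarith
  exact le_of_mul_le_mul_right h6 hlog2

/-- Chebyshev bound -/
lemma card_le (p : ℕ) (hp : p.Prime) (Q : Finset ℕ) (hQ : ∀ q ∈ Q, q.Prime ∧ q ≤ p) :
    (Q.card : ℝ) ≤ 5 * p / Real.log p := by
  have h1 : (1:ℝ) < p := by exact_mod_cast hp.one_lt
  have hpi := Chebyshev.pi_le_log4_mul_div h1
  rw [Nat.floor_natCast] at hpi
  have hcard : (Q.card : ℝ) ≤ (Nat.primeCounting p : ℝ) := by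
    have hsub : Q ⊆ Nat.primesLE p := by
      intro q hq
      rw [Nat.mem_primesLE]
      exact ⟨(hQ q hq).2, (hQ q hq).1⟩
    have := Finset.card_le_card hsub
    have h2 : (Nat.primesLE p).card = Nat.primeCounting p := by
      simp
    rw [h2] at this
    exact_mod_cast this
  refine hcard.trans (hpi.trans ?_)
  have hlog : 0 < Real.log p := Real.log_pos h1
  rw [Real.log_sqrt (by positivity)]
  have h4 : Real.log 4 ≤ 3/2 := by
    rw [show (4:ℝ) = 2^2 by norm_num, Real.log_pow]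
    have := Real.log_two_lt_d9
    push_cast; linarith
  have hs : Real.sqrt p * Real.log p ≤ 2 * p := by
    have h5 : Real.log p ≤ 2 * Real.sqrt p := by
      have h6 : Real.log (Real.sqrt p) ≤ Real.sqrt p := (Real.log_le_sub_one_of_pos (by positivity)).trans (by linarith)
      rw [Real.log_sqrt (by positivity)] at h6
      linarith
    have h7 := Real.mul_self_sqrt (show (0:ℝ) ≤ p by positivity)
    nlinarith [Real.sqrt_nonneg (p:ℝ)]
  have hsq : Real.sqrt p ≤ 2 * p / Real.log p := by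
    rw [le_div_iff₀ hlog]; exact hs
  have h8 : Real.log 4 * p / (Real.log p / 2) = 2 * Real.log 4 * (p / Real.log p) := by
    field_simp
  rw [h8]
  have h9 : 0 ≤ (p:ℝ) / Real.log p := by positivity
  have h10 : 2 * (p:ℝ) / Real.log p = 2 * (p / Real.log p) := by ring
  have h11 : 5 * (p:ℝ) / Real.log p = 5 * (p / Real.log p) := by ring
  rw [h10] at hsq
  rw [h11]
  nlinarith

/-- sum of reciprocals in a binary block -/
lemma sum_inv_block (n : ℕ) (hn : 1 ≤ n) (Q : Finset ℕ) (hQ : ∀ p ∈ Q, p.Prime ∧ Nat.log 2 p = n) :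
    ∑ p ∈ Q, (1 / (p:ℝ)) ≤ 4 / n := by
  have h1 : ∑ p ∈ Q, (1 / (p:ℝ)) ≤ ∑ p ∈ Q, (1 / (2:ℝ)^n) := by
    apply Finset.sum_le_sum
    intro p hp
    obtain ⟨h1, h2⟩ := hQ p hp
    apply one_div_le_one_div_of_le (by positivity)
    have := Nat.pow_log_le_self 2 h1.ne_zero
    rw [h2] at this
    exact_mod_cast this
  refine h1.trans ?_
  rw [Finset.sum_const, nsmul_eq_mul]
  have h2 := card_block n hn Q hQ
  have hn' : (0:ℝ) < n := by exact_mod_cast hn
  calc (Q.card : ℝ) * (1 / 2^n) ≤ (4 * 2 ^ n / n) * (1/2^n) :=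
        mul_le_mul_of_nonneg_right h2 (by positivity)
    _ = 4 / n := by field_simp

/-- double-logarithmic block index -/
def kap (p : ℕ) : ℕ := Nat.log 2 (Nat.log 2 p)

lemma kap_bounds {p k : ℕ} (hp : p.Prime) (h : kap p = k) :
    2^k ≤ Nat.log 2 p ∧ Nat.log 2 p < 2^(k+1) := by
  have h0 : Nat.log 2 p ≠ 0 := by
    have : 1 ≤ Nat.log 2 p := Nat.log_pos (by norm_num) hp.two_le
    omega
  rw [kap] at h
  constructor
  · rw [← h]; exact Nat.pow_log_le_self 2 h0
  · rw [← h]; exact Nat.lt_pow_succ_log_self (by norm_num) _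

lemma sum_inv_log_block (k : ℕ) (Q : Finset ℕ) (hQ : ∀ p ∈ Q, p.Prime ∧ kap p = k) :
    ∑ p ∈ Q, (1 / ((p:ℝ) * Real.log p)) ≤ 6 / 2^k := by
  have hmaps : ∀ p ∈ Q, Nat.log 2 p ∈ Finset.Ico (2^k) (2^(k+1)) := by
    intro p hp
    obtain ⟨h1, h2⟩ := hQ p hp
    rw [Finset.mem_Ico]
    exact kap_bounds h1 h2
  rw [← Finset.sum_fiberwise_of_maps_to hmaps]
  have hlog2 : 0 < Real.log 2 := Real.log_pos (by norm_num)
  have hl2 : (2/3 : ℝ) ≤ Real.log 2 := by
    have := Real.log_two_gt_d9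
    linarith
  have h1 : ∀ n ∈ Finset.Ico (2^k) (2^(k+1)), ∑ p ∈ Q.filter (fun p => Nat.log 2 p = n), (1 / ((p:ℝ) * Real.log p))
      ≤ 6 / (2^k * 2^k) := by
    intro n hn
    rw [Finset.mem_Ico] at hn
    have hn1 : 1 ≤ n := (Nat.one_le_two_pow).trans hn.1
    have hn' : (0:ℝ) < n := by exact_mod_cast hn1
    have hnk : (2:ℝ)^k ≤ n := by exact_mod_cast hn.1
    have h2 : ∀ p ∈ Q.filter (fun p => Nat.log 2 p = n), 1 / ((p:ℝ) * Real.log p) ≤ (1 / (p:ℝ)) * (1 / (n * Real.log 2)) := by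
      intro p hp
      rw [Finset.mem_filter] at hp
      obtain ⟨h1, h2⟩ := hQ p hp.1
      have hp0 : (0:ℝ) < p := by exact_mod_cast h1.pos
      have hle : n * Real.log 2 ≤ Real.log p := by
        rw [← Real.log_pow]
        apply Real.log_le_log (by positivity)
        have := Nat.pow_log_le_self 2 h1.ne_zero
        rw [hp.2] at this
        exact_mod_cast this
      rw [← one_div_mul_one_div]
      apply mul_le_mul_of_nonneg_left _ (by positivity)
      exact one_div_le_one_div_of_le (by positivity) hle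
    refine (Finset.sum_le_sum h2).trans ?_
    rw [← Finset.sum_mul]
    have h3 := sum_inv_block n hn1 (Q.filter (fun p => Nat.log 2 p = n)) (by
      intro p hp
      rw [Finset.mem_filter] at hp
      exact ⟨(hQ p hp.1).1, hp.2⟩)
    calc (∑ p ∈ Q.filter (fun p => Nat.log 2 p = n), (1 / (p:ℝ))) * (1 / (n * Real.log 2))
        ≤ (4 / n) * (1 / (n * Real.log 2)) := mul_le_mul_of_nonneg_right h3 (by positivity)
      _ = (4 / Real.log 2) * (1 / (n * n)) := by field_simp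
      _ ≤ 6 * (1 / (n * n)) := by
          apply mul_le_mul_of_nonneg_right _ (by positivity)
          rw [div_le_iff₀ hlog2]; linarith
      _ ≤ 6 * (1 / (2^k * 2^k)) := by
          apply mul_le_mul_of_nonneg_left _ (by norm_num)
          apply one_div_le_one_div_of_le (by positivity)
          exact mul_le_mul hnk hnk (by positivity) (by positivity)
      _ = 6 / (2^k * 2^k) := by ring
  refine (Finset.sum_le_sum h1).trans ?_
  rw [Finset.sum_const, Nat.card_Ico, nsmul_eq_mul]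
  have h2 : ((2^(k+1) - 2^k : ℕ) : ℝ) = 2^k := by
    rw [pow_succ, Nat.mul_two, Nat.add_sub_cancel]; push_cast; ring
  rw [h2]
  apply le_of_eq
  field_simp

/-- exponential `p ^ (-i t)` -/
noncomputable def ee (p : ℕ) (t : ℝ) : ℂ := cexp (-(t * Real.log p) * I)

lemma norm_ee (p : ℕ) (t : ℝ) : ‖ee p t‖ = 1 := by
  rw [ee, show (-(t * Real.log p : ℂ)) * I = ((-(t * Real.log p) : ℝ) : ℂ) * I by push_cast; ring]
  exact Complex.norm_exp_ofReal_mul_I _

/-- Dirichlet polynomial -/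
noncomputable def ZZ (Q : Finset ℕ) (c : ℕ → ℂ) (t : ℝ) : ℂ := ∑ p ∈ Q, c p * ee p t

lemma ee_mul_conj (p q : ℕ) (t : ℝ) : ee p t * (starRingEnd ℂ) (ee q t)
    = cexp (I * ((-(Real.log p - Real.log q) : ℝ) : ℂ) * t) := by
  rw [ee, ee, ← Complex.exp_conj, ← Complex.exp_add]
  congr 1
  simp only [map_mul, map_neg, Complex.conj_ofReal, Complex.conj_I]
  push_cast; ring

lemma normSq_ZZ (Q : Finset ℕ) (c : ℕ → ℂ) (t : ℝ) :
    (‖ZZ Q c t‖^2 : ℝ) = (∑ p ∈ Q, ∑ q ∈ Q, c p * (starRingEnd ℂ) (c q) *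
      cexp (I * ((-(Real.log p - Real.log q) : ℝ) : ℂ) * t)).re := by
  have : ‖ZZ Q c t‖^2 = (ZZ Q c t * (starRingEnd ℂ) (ZZ Q c t)).re := by
    rw [Complex.mul_conj, Complex.ofReal_re, Complex.normSq_eq_norm_sq]
  rw [this, ZZ, map_sum, Finset.sum_mul_sum]
  congr 1
  refine Finset.sum_congr rfl fun p _ => Finset.sum_congr rfl fun q _ => ?_
  rw [map_mul, ← ee_mul_conj]
  ring

lemma gauss_int (x : ℝ) : ∫ u : ℝ, cexp (I * (x:ℂ) * u) * cexp (-(1:ℂ) * u ^ 2)
    = (Real.sqrt Real.pi : ℂ) * ((Real.exp (-x^2/4) : ℝ) : ℂ) := by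
  rw [fourierIntegral_gaussian (b := 1) (by simp) (x : ℂ)]
  congr 1
  · rw [div_one, Real.sqrt_eq_rpow, Complex.ofReal_cpow Real.pi_pos.le]
    push_cast; rfl
  · push_cast
    congr 1
    ring

lemma gauss_integrable (x : ℝ) : Integrable (fun u : ℝ => cexp (I * (x:ℂ) * u) * cexp (-(1:ℂ) * u ^ 2)) := by
  have h := integrable_cexp_quadratic (b := 1) (by simp) (I * (x:ℂ)) 0
  refine h.congr (Filter.Eventually.of_forall fun u => ?_)
  simp only
  rw [← Complex.exp_add]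
  congr 1
  ring

/-- Gaussian mean square -/
lemma gauss_mean (Q : Finset ℕ) (c : ℕ → ℂ) :
    Integrable (fun u : ℝ => ‖ZZ Q c u‖^2 * Real.exp (-u^2)) ∧
    ∫ u : ℝ, ‖ZZ Q c u‖^2 * Real.exp (-u^2) ≤
      Real.sqrt Real.pi * ∑ p ∈ Q, ∑ q ∈ Q, ‖c p‖ * ‖c q‖ * Real.exp (-(Real.log p - Real.log q)^2/4) := by
  have h1 : ∀ u : ℝ, ‖ZZ Q c u‖^2 * Real.exp (-u^2) =
      (∑ p ∈ Q, ∑ q ∈ Q, c p * (starRingEnd ℂ) (c q) *
      (cexp (I * ((-(Real.log p - Real.log q) : ℝ) : ℂ) * u) * cexp (-(1:ℂ) * u^2))).re := by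
    intro u
    rw [normSq_ZZ, ← Complex.re_mul_ofReal, Finset.sum_mul]
    congr 1
    refine Finset.sum_congr rfl fun p _ => ?_
    rw [Finset.sum_mul]
    refine Finset.sum_congr rfl fun q _ => ?_
    rw [mul_assoc]
    congr 2
    push_cast
    congr 1
    ring
  have hI : ∀ p ∈ Q, Integrable (fun u : ℝ => ∑ q ∈ Q, c p * (starRingEnd ℂ) (c q) *
      (cexp (I * ((-(Real.log p - Real.log q) : ℝ) : ℂ) * u) * cexp (-(1:ℂ) * u^2))) := by
    intro p _
    apply integrable_finsetSum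
    intro q _
    exact (gauss_integrable _).const_mul _
  have hI2 : Integrable (fun u : ℝ => ∑ p ∈ Q, ∑ q ∈ Q, c p * (starRingEnd ℂ) (c q) *
      (cexp (I * ((-(Real.log p - Real.log q) : ℝ) : ℂ) * u) * cexp (-(1:ℂ) * u^2))) :=
    integrable_finsetSum _ hI
  have hval : ∫ u : ℝ, ∑ p ∈ Q, ∑ q ∈ Q, c p * (starRingEnd ℂ) (c q) *
      (cexp (I * ((-(Real.log p - Real.log q) : ℝ) : ℂ) * u) * cexp (-(1:ℂ) * u^2))
      = ∑ p ∈ Q, ∑ q ∈ Q, c p * (starRingEnd ℂ) (c q) *
        ((Real.sqrt Real.pi : ℂ) * ((Real.exp (-(-(Real.log p - Real.log q))^2/4) : ℝ) : ℂ)) := by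
    rw [integral_finsetSum _ hI]
    refine Finset.sum_congr rfl fun p _ => ?_
    rw [integral_finsetSum _ (fun q _ => (gauss_integrable _).const_mul _)]
    refine Finset.sum_congr rfl fun q _ => ?_
    rw [integral_const_mul, gauss_int]
  constructor
  · have := hI2.re
    refine this.congr (Filter.Eventually.of_forall fun u => ?_)
    exact (h1 u).symm
  · have h2 : ∫ u : ℝ, ‖ZZ Q c u‖^2 * Real.exp (-u^2) = (∫ u : ℝ, ∑ p ∈ Q, ∑ q ∈ Q, c p * (starRingEnd ℂ) (c q) *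
      (cexp (I * ((-(Real.log p - Real.log q) : ℝ) : ℂ) * u) * cexp (-(1:ℂ) * u^2))).re := by
      rw [← reCLM_apply, ← ContinuousLinearMap.integral_comp_comm _ hI2]
      refine integral_congr_ae (Filter.Eventually.of_forall fun u => ?_)
      simp only [reCLM_apply]
      exact h1 u
    rw [h2, hval]
    refine (Complex.re_le_norm _).trans ((norm_sum_le _ _).trans ?_)
    rw [Finset.mul_sum]
    refine Finset.sum_le_sum fun p _ => (norm_sum_le _ _).trans ?_
    rw [Finset.mul_sum]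
    refine Finset.sum_le_sum fun q _ => ?_
    rw [norm_mul, norm_mul, norm_mul, RCLike.norm_conj, Complex.norm_real, Complex.norm_real,
      Real.norm_of_nonneg (Real.sqrt_nonneg _), Real.norm_of_nonneg (Real.exp_pos _).le, neg_sq]
    apply le_of_eq
    ring

/-- kernel bound -/
lemma exp_kernel_le (p q : ℕ) (hp : 0 < p) (hq : 0 < q) :
    Real.exp (-(Real.log p - Real.log q)^2/4) ≤ Real.exp 1 * (q / p) := by
  have hp' : (0:ℝ) < p := by exact_mod_cast hp
  have hq' : (0:ℝ) < q := by exact_mod_cast hq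
  have h1 : (q:ℝ)/p = Real.exp (-(Real.log p - Real.log q)) := by
    rw [neg_sub, Real.exp_sub, Real.exp_log hp', Real.exp_log hq']
  rw [h1, ← Real.exp_add]
  apply Real.exp_le_exp.mpr
  nlinarith [sq_nonneg ((Real.log p - Real.log q)/2 - 1)]

lemma kernel_sum (Q : Finset ℕ) (hQ : ∀ p ∈ Q, p.Prime) (c : ℕ → ℂ) (D : ℝ) (hD : 0 ≤ D)
    (hc : ∀ p ∈ Q, ‖c p‖ ≤ D / p) :
    ∑ p ∈ Q, ∑ q ∈ Q, ‖c p‖ * ‖c q‖ * Real.exp (-(Real.log p - Real.log q)^2/4)
      ≤ 10 * Real.exp 1 * D^2 * ∑ p ∈ Q, 1 / ((p:ℝ) * Real.log p) := by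
  have hpt : ∀ p ∈ Q, ∀ q ∈ Q, ‖c p‖ * ‖c q‖ * Real.exp (-(Real.log p - Real.log q)^2/4)
      ≤ (if q ≤ p then Real.exp 1 * D^2 * (1/(p:ℝ)^2) else 0) +
        (if p ≤ q then Real.exp 1 * D^2 * (1/(q:ℝ)^2) else 0) := by
    intro p hp q hq
    have hp0 := (hQ p hp).pos
    have hq0 := (hQ q hq).pos
    have hp' : (0:ℝ) < p := by exact_mod_cast hp0
    have hq' : (0:ℝ) < q := by exact_mod_cast hq0
    have h1 : ‖c p‖ * ‖c q‖ ≤ (D/p) * (D/q) :=
      mul_le_mul (hc p hp) (hc q hq) (norm_nonneg _) (by positivity)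
    rcases le_total q p with h | h
    · rw [if_pos h]
      have h2 : 0 ≤ (if p ≤ q then Real.exp 1 * D^2 * (1/(q:ℝ)^2) else 0) := by
        split_ifs <;> positivity
      have h3 : ‖c p‖ * ‖c q‖ * Real.exp (-(Real.log p - Real.log q)^2/4) ≤ ((D/p) * (D/q)) * (Real.exp 1 * (q / p)) :=
        mul_le_mul h1 (exp_kernel_le p q hp0 hq0) (Real.exp_pos _).le (by positivity)
      have h4 : ((D/p) * (D/q)) * (Real.exp 1 * (q / p)) = Real.exp 1 * D^2 * (1/(p:ℝ)^2) := by
        field_simp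
      linarith
    · rw [if_pos h]
      have h2 : 0 ≤ (if q ≤ p then Real.exp 1 * D^2 * (1/(p:ℝ)^2) else 0) := by
        split_ifs <;> positivity
      have h5 : Real.exp (-(Real.log p - Real.log q)^2/4) = Real.exp (-(Real.log q - Real.log p)^2/4) := by
        congr 1; ring
      rw [h5]
      have h3 : ‖c p‖ * ‖c q‖ * Real.exp (-(Real.log q - Real.log p)^2/4) ≤ ((D/p) * (D/q)) * (Real.exp 1 * (p / q)) :=
        mul_le_mul h1 (exp_kernel_le q p hq0 hp0) (Real.exp_pos _).le (by positivity)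
      have h4 : ((D/p) * (D/q)) * (Real.exp 1 * (p / q)) = Real.exp 1 * D^2 * (1/(q:ℝ)^2) := by
        field_simp
      linarith
  have h1 : ∑ p ∈ Q, ∑ q ∈ Q, ‖c p‖ * ‖c q‖ * Real.exp (-(Real.log p - Real.log q)^2/4)
      ≤ ∑ p ∈ Q, ∑ q ∈ Q, ((if q ≤ p then Real.exp 1 * D^2 * (1/(p:ℝ)^2) else 0) +
        (if p ≤ q then Real.exp 1 * D^2 * (1/(q:ℝ)^2) else 0)) :=
    Finset.sum_le_sum fun p hp => Finset.sum_le_sum fun q hq => hpt p hp q hq
  refine h1.trans ?_
  simp only [Finset.sum_add_distrib]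
  have h2 : ∑ p ∈ Q, ∑ q ∈ Q, (if q ≤ p then Real.exp 1 * D^2 * (1/(p:ℝ)^2) else 0)
      ≤ 5 * Real.exp 1 * D^2 * ∑ p ∈ Q, 1 / ((p:ℝ) * Real.log p) := by
    rw [Finset.mul_sum]
    refine Finset.sum_le_sum fun p hp => ?_
    rw [← Finset.sum_filter, Finset.sum_const, nsmul_eq_mul]
    have hp' : (0:ℝ) < p := by exact_mod_cast (hQ p hp).pos
    have hcard := card_le p (hQ p hp) (Q.filter (fun q => q ≤ p)) (by
      intro q hq
      rw [Finset.mem_filter] at hq
      exact ⟨hQ q hq.1, hq.2⟩)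
    have hlog : 0 < Real.log p := Real.log_pos (by exact_mod_cast (hQ p hp).one_lt)
    calc ((Q.filter (fun q => q ≤ p)).card : ℝ) * (Real.exp 1 * D^2 * (1/(p:ℝ)^2))
        ≤ (5 * p / Real.log p) * (Real.exp 1 * D^2 * (1/(p:ℝ)^2)) :=
          mul_le_mul_of_nonneg_right hcard (by positivity)
      _ = 5 * Real.exp 1 * D^2 * (1 / ((p:ℝ) * Real.log p)) := by
          field_simp
  have h3 : ∑ p ∈ Q, ∑ q ∈ Q, (if p ≤ q then Real.exp 1 * D^2 * (1/(q:ℝ)^2) else 0)
      = ∑ p ∈ Q, ∑ q ∈ Q, (if q ≤ p then Real.exp 1 * D^2 * (1/(p:ℝ)^2) else 0) := Finset.sum_comm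
  rw [h3]
  linarith

/-- local mean square of a Dirichlet polynomial over primes -/
lemma local_mean (Q : Finset ℕ) (hQ : ∀ p ∈ Q, p.Prime) (c : ℕ → ℂ) (D : ℝ) (hD : 0 ≤ D)
    (hc : ∀ p ∈ Q, ‖c p‖ ≤ D / p) (T : ℝ) :
    ∫ t in T..(T+1), ‖ZZ Q c t‖^2 ≤ 200 * D^2 * ∑ p ∈ Q, 1 / ((p:ℝ) * Real.log p) := by
  set c' : ℕ → ℂ := fun p => c p * ee p T with hc'
  have hshift : ∀ u : ℝ, ZZ Q c (u + T) = ZZ Q c' u := by
    intro u
    unfold ZZ
    refine Finset.sum_congr rfl fun p _ => ?_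
    rw [hc']
    simp only [ee, mul_assoc]
    rw [← Complex.exp_add]
    congr 2
    push_cast; ring
  have hc'n : ∀ p ∈ Q, ‖c' p‖ ≤ D / p := by
    intro p hp
    rw [hc']
    simp only
    rw [norm_mul, norm_ee, mul_one]
    exact hc p hp
  obtain ⟨hI, hle⟩ := gauss_mean Q c'
  have hcont : Continuous (fun u : ℝ => ‖ZZ Q c' u‖^2) := by
    unfold ZZ ee
    fun_prop
  have h1 : ∫ t in T..(T+1), ‖ZZ Q c t‖^2 = ∫ u in (0:ℝ)..1, ‖ZZ Q c' u‖^2 := by
    have := intervalIntegral.integral_comp_add_right (a := (0:ℝ)) (b := 1) (fun t => ‖ZZ Q c t‖^2) T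
    rw [zero_add, add_comm 1 T] at this
    rw [← this]
    apply intervalIntegral.integral_congr
    intro u _
    simp only
    rw [hshift]
  rw [h1]
  have h2 : ∫ u in (0:ℝ)..1, ‖ZZ Q c' u‖^2 ≤ ∫ u in (0:ℝ)..1, Real.exp 1 * (‖ZZ Q c' u‖^2 * Real.exp (-u^2)) := by
    apply intervalIntegral.integral_mono_on (by norm_num)
    · exact hcont.intervalIntegrable _ _
    · exact (continuous_const.mul (hcont.mul (by fun_prop))).intervalIntegrable _ _
    · intro u hu
      have h3 : 1 ≤ Real.exp 1 * Real.exp (-u^2) := by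
        rw [← Real.exp_add]
        apply Real.one_le_exp
        nlinarith [hu.1, hu.2]
      have h4 : 0 ≤ ‖ZZ Q c' u‖^2 := sq_nonneg _
      nlinarith
  rw [intervalIntegral.integral_const_mul] at h2
  have h3 : ∫ u in (0:ℝ)..1, ‖ZZ Q c' u‖^2 * Real.exp (-u^2) ≤ ∫ u : ℝ, ‖ZZ Q c' u‖^2 * Real.exp (-u^2) := by
    rw [intervalIntegral.integral_of_le (by norm_num)]
    apply setIntegral_le_integral hI
    exact Filter.Eventually.of_forall fun u => by positivity
  have hk := kernel_sum Q hQ c' D hD hc'n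
  have hS : 0 ≤ ∑ p ∈ Q, 1 / ((p:ℝ) * Real.log p) := by
    apply Finset.sum_nonneg
    intro p hp
    have hlog : 0 < Real.log p := Real.log_pos (by exact_mod_cast (hQ p hp).one_lt)
    have hp' : (0:ℝ) < p := by exact_mod_cast (hQ p hp).pos
    positivity
  set S := ∑ p ∈ Q, 1 / ((p:ℝ) * Real.log p) with hSdef
  have he : Real.exp 1 ≤ 2.72 := by
    have := Real.exp_one_lt_d9
    linarith
  have hpi : Real.sqrt Real.pi ≤ 2 := by
    rw [show (2:ℝ) = Real.sqrt 4 by rw [show (4:ℝ) = 2^2 by norm_num]; rw [Real.sqrt_sq (by norm_num)]]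
    exact Real.sqrt_le_sqrt Real.pi_le_four
  have hpos : 0 < Real.exp 1 := Real.exp_pos 1
  calc ∫ u in (0:ℝ)..1, ‖ZZ Q c' u‖^2 ≤ Real.exp 1 * ∫ u in (0:ℝ)..1, ‖ZZ Q c' u‖^2 * Real.exp (-u^2) := h2
    _ ≤ Real.exp 1 * (Real.sqrt Real.pi * (10 * Real.exp 1 * D^2 * S)) := by
        apply mul_le_mul_of_nonneg_left _ hpos.le
        exact h3.trans (hle.trans (mul_le_mul_of_nonneg_left hk (Real.sqrt_nonneg _)))
    _ = (Real.exp 1 * Real.exp 1) * Real.sqrt Real.pi * (10 * (D^2 * S)) := by ring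
    _ ≤ (2.72 * 2.72) * 2 * (10 * (D^2 * S)) := by
        apply mul_le_mul_of_nonneg_right _ (by positivity)
        apply mul_le_mul _ hpi (Real.sqrt_nonneg _) (by norm_num)
        exact mul_le_mul he he hpos.le (by norm_num)
    _ ≤ 200 * D^2 * S := by
        have : 0 ≤ D^2 * S := by positivity
        nlinarith

/-- sup over a short interval in terms of mean squares -/
lemma sup_le {Z Z' : ℝ → ℂ} (hZ : ∀ t, HasDerivAt Z (Z' t) t) (hZ' : Continuous Z') (a : ℝ) {δ : ℝ} (hδ : 0 < δ)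
    {x : ℝ} (hx : x ∈ Set.Icc a (a+δ)) :
    ‖Z x‖^2 ≤ (2/δ) * (∫ t in a..(a+δ), ‖Z t‖^2) + δ * (∫ t in a..(a+δ), ‖Z' t‖^2) := by
  have hZc : Continuous Z := continuous_iff_continuousAt.mpr fun t => (hZ t).continuousAt
  -- derivative of the squared norm
  set g : ℝ → ℝ := fun t => 2 * (Z t * (starRingEnd ℂ) (Z' t)).re with hg
  have hder : ∀ t, HasDerivAt (fun t => ‖Z t‖^2) (g t) t := by
    intro t
    have h1 := (hZ t).norm_sq
    convert h1 using 1
    rw [hg]
    simp only [Complex.inner]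
    congr 1
    rw [Complex.mul_re, Complex.mul_re, Complex.conj_re, Complex.conj_im, Complex.conj_re, Complex.conj_im]
    ring
  have hgc : Continuous g := by
    rw [hg]
    fun_prop
  have hgle : ∀ t, |g t| ≤ (1/δ) * ‖Z t‖^2 + δ * ‖Z' t‖^2 := by
    intro t
    rw [hg]
    simp only
    rw [abs_mul, abs_of_pos (by norm_num : (0:ℝ) < 2)]
    have h1 : |(Z t * (starRingEnd ℂ) (Z' t)).re| ≤ ‖Z t‖ * ‖Z' t‖ := by
      refine (Complex.abs_re_le_norm _).trans ?_
      rw [norm_mul, RCLike.norm_conj]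
    have h2 : 2 * (‖Z t‖ * ‖Z' t‖) ≤ (1/δ) * ‖Z t‖^2 + δ * ‖Z' t‖^2 := by
      have h3 : 0 ≤ (1/δ) * (‖Z t‖ - δ * ‖Z' t‖)^2 := by positivity
      have h4 : (1/δ) * (‖Z t‖ - δ * ‖Z' t‖)^2 = (1/δ) * ‖Z t‖^2 + δ * ‖Z' t‖^2 - 2 * (‖Z t‖ * ‖Z' t‖) := by
        field_simp
        ring
      linarith
    linarith
  set A := ∫ t in a..(a+δ), ‖Z t‖^2 with hA
  set B := ∫ t in a..(a+δ), ‖Z' t‖^2 with hB
  have hint : ∫ t in a..(a+δ), |g t| ≤ (1/δ) * A + δ * B := by
    have h1 : ∫ t in a..(a+δ), |g t| ≤ ∫ t in a..(a+δ), ((1/δ) * ‖Z t‖^2 + δ * ‖Z' t‖^2) := by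
      apply intervalIntegral.integral_mono_on (by linarith)
      · exact hgc.abs.intervalIntegrable _ _
      · exact (by fun_prop : Continuous (fun t => (1/δ) * ‖Z t‖^2 + δ * ‖Z' t‖^2)).intervalIntegrable _ _
      · intro t _; exact hgle t
    rw [intervalIntegral.integral_add, intervalIntegral.integral_const_mul, intervalIntegral.integral_const_mul] at h1
    · exact h1
    · exact (by fun_prop : Continuous (fun t => (1/δ) * ‖Z t‖^2)).intervalIntegrable _ _
    · exact (by fun_prop : Continuous (fun t => δ * ‖Z' t‖^2)).intervalIntegrable _ _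
  -- pointwise
  have hpt : ∀ y ∈ Set.Icc a (a+δ), ‖Z x‖^2 - ((1/δ) * A + δ * B) ≤ ‖Z y‖^2 := by
    intro y hy
    have h1 : ∫ t in y..x, g t = ‖Z x‖^2 - ‖Z y‖^2 :=
      intervalIntegral.integral_eq_sub_of_hasDerivAt (fun t _ => hder t) (hgc.intervalIntegrable _ _)
    have h2 : |∫ t in y..x, g t| ≤ ∫ t in a..(a+δ), |g t| := by
      have h3 : |∫ t in y..x, g t| ≤ |(∫ t in y..x, |g t|)| := by
        simpa [Real.norm_eq_abs] using
          (intervalIntegral.norm_integral_le_abs_integral_norm (f := g) (a := y) (b := x) (μ := volume))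
      have h4 : |(∫ t in y..x, |g t|)| ≤ |(∫ t in a..(a+δ), |g t|)| := by
        apply intervalIntegral.abs_integral_mono_interval
        · intro z hz
          rw [Set.mem_uIoc] at hz
          rw [Set.uIoc_of_le (by linarith)]
          rcases hz with hz | hz
          · exact ⟨by linarith [hy.1, hz.1], by linarith [hx.2, hz.2]⟩
          · exact ⟨by linarith [hx.1, hz.1], by linarith [hy.2, hz.2]⟩
        · exact Filter.Eventually.of_forall fun t => abs_nonneg _
        · exact hgc.abs.intervalIntegrable _ _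
      have h5 : 0 ≤ ∫ t in a..(a+δ), |g t| :=
        intervalIntegral.integral_nonneg (by linarith) fun t _ => abs_nonneg _
      rw [abs_of_nonneg h5] at h4
      exact h3.trans h4
    have h4 := (abs_le.mp h2).2
    linarith
  have h5 : ∫ y in a..(a+δ), (‖Z x‖^2 - ((1/δ) * A + δ * B)) ≤ A := by
    apply intervalIntegral.integral_mono_on (by linarith)
    · exact continuous_const.intervalIntegrable _ _
    · exact (by fun_prop : Continuous (fun t => ‖Z t‖^2)).intervalIntegrable _ _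
    · exact hpt
  rw [intervalIntegral.integral_const, smul_eq_mul, add_sub_cancel_left] at h5
  have h6 : ‖Z x‖^2 - ((1/δ) * A + δ * B) ≤ A / δ := by
    rw [le_div_iff₀ hδ]; linarith
  have h7 : (2/δ) * A = (1/δ) * A + A/δ := by ring
  linarith

end Pool.Agent.H3
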