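import Mathlib
import Pool.Agent.H3.EdgeA

/-!
# Convergence of prime Dirichlet series off a set of Hausdorff dimension zero

For coefficients `c p` with `|c p| <= B / p` the series `∑ c p * p ^ (-i t)` over the primes converges
for all real `t` outside a set of Hausdorff dimension zero; and an Abel-Stolz theorem for Dirichlet
series.
-/

open Complex Filter Topology Polynomial MeasureTheory
open scoped ENNReal NNReal

namespace Pool.Agent.H3

lemma hasDerivAt_ee (p : ℕ) (t : ℝ) : HasDerivAt (ee p) (-(Real.log p : ℂ) * I * ee p t) t := by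
  have h1 : HasDerivAt (fun t : ℝ => -((t : ℂ) * (Real.log p : ℂ)) * I) (-((1:ℂ) * (Real.log p : ℂ)) * I) t := by
    have h2 : HasDerivAt (fun t : ℝ => (t : ℂ)) 1 t := Complex.ofRealCLM.hasDerivAt
    exact ((h2.mul_const _).neg).mul_const _
  have h3 := h1.cexp
  have h4 : (fun t : ℝ => cexp (-((t : ℂ) * (Real.log p : ℂ)) * I)) = ee p := by
    funext t; rfl
  rw [h4] at h3
  convert h3 using 1
  rw [ee]
  ring

lemma hasDerivAt_ZZ (Q : Finset ℕ) (c : ℕ → ℂ) (t : ℝ) :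
    HasDerivAt (ZZ Q c) (ZZ Q (fun p => c p * (-(Real.log p : ℂ) * I)) t) t := by
  have h : HasDerivAt (fun t => ∑ p ∈ Q, c p * ee p t) (∑ p ∈ Q, c p * (-(Real.log p : ℂ) * I * ee p t)) t :=
    HasDerivAt.fun_sum fun p _ => (hasDerivAt_ee p t).const_mul _
  refine HasDerivAt.congr_deriv (f := ZZ Q c) h ?_
  unfold ZZ
  apply Finset.sum_congr rfl
  intro p _
  ring

lemma continuous_ZZ (Q : Finset ℕ) (c : ℕ → ℂ) : Continuous (ZZ Q c) :=
  continuous_iff_continuousAt.mpr fun t => (hasDerivAt_ZZ Q c t).continuousAt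

lemma bad_count (c : ℕ → ℂ) {B : ℝ} (hB : 0 ≤ B) (hc : ∀ p, p.Prime → ‖c p‖ ≤ B / p) (k : ℕ)
    (Q : Finset ℕ) (hQ : ∀ p ∈ Q, p.Prime ∧ kap p = k) (T : ℝ) {lam : ℝ} (hlam : 0 < lam)
    (J : Finset ℕ) (hJ : ∀ j ∈ J, j < 2^k ∧ ∃ x ∈ Set.Icc (T + j / 2^k) (T + (j+1)/2^k), lam < ‖ZZ Q c x‖) :
    (J.card : ℝ) ≤ 7200 * B^2 / lam^2 := by
  set Z := ZZ Q c with hZ
  set Z' := ZZ Q (fun p => c p * (-(Real.log p : ℂ) * I)) with hZ'
  have hZc : Continuous Z := continuous_ZZ _ _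
  have hZ'c : Continuous Z' := continuous_ZZ _ _
  set δ : ℝ := 1 / 2^k with hδ
  have hδ0 : 0 < δ := by positivity
  have hi1 : ∫ t in T..(T+1), ‖Z t‖^2 ≤ 1200 * B^2 * δ := by
    have h1 := local_mean Q (fun p hp => (hQ p hp).1) c B hB (fun p hp => hc p (hQ p hp).1) T
    have h2 := sum_inv_log_block k Q hQ
    refine h1.trans ?_
    calc 200 * B^2 * ∑ p ∈ Q, 1 / ((p:ℝ) * Real.log p) ≤ 200 * B^2 * (6/2^k) :=
          mul_le_mul_of_nonneg_left h2 (by positivity)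
      _ = 1200 * B^2 * δ := by rw [hδ]; ring
  have hi2 : ∫ t in T..(T+1), ‖Z' t‖^2 ≤ 4800 * B^2 / δ := by
    have h1 := local_mean Q (fun p hp => (hQ p hp).1) (fun p => c p * (-(Real.log p : ℂ) * I)) (B * 2^(k+1))
      (by positivity) (fun p hp => ?_) T
    · have h2 := sum_inv_log_block k Q hQ
      refine h1.trans ?_
      calc 200 * (B * 2^(k+1))^2 * ∑ p ∈ Q, 1 / ((p:ℝ) * Real.log p) ≤ 200 * (B * 2^(k+1))^2 * (6/2^k) :=
            mul_le_mul_of_nonneg_left h2 (by positivity)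
        _ = 4800 * B^2 / δ := by
            rw [hδ, pow_succ]; field_simp; ring
    · obtain ⟨h1, h2⟩ := hQ p hp
      have hp0 : (0:ℝ) < p := by exact_mod_cast h1.pos
      have hlog : 0 ≤ Real.log p := Real.log_nonneg (by exact_mod_cast h1.one_le)
      rw [norm_mul, norm_mul, norm_neg, Complex.norm_I, mul_one, Complex.norm_real, Real.norm_of_nonneg hlog]
      have h3 : Real.log p ≤ 2^(k+1) := by
        obtain ⟨_, h4⟩ := kap_bounds h1 h2
        have h5 : p < 2^(Nat.log 2 p + 1) := Nat.lt_pow_succ_log_self (by norm_num) p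
        have h6 : (p:ℝ) ≤ 2^(Nat.log 2 p + 1) := by exact_mod_cast h5.le
        have h7 : Real.log p ≤ (Nat.log 2 p + 1 : ℕ) * Real.log 2 := by
          rw [← Real.log_pow]
          exact Real.log_le_log hp0 h6
        have h8 : ((Nat.log 2 p + 1 : ℕ) : ℝ) ≤ 2^(k+1) := by exact_mod_cast h4
        have h9 : Real.log 2 ≤ 1 := by linarith [Real.log_two_lt_d9]
        have h10 : 0 ≤ Real.log 2 := Real.log_nonneg (by norm_num)
        calc Real.log p ≤ (Nat.log 2 p + 1 : ℕ) * Real.log 2 := h7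
          _ ≤ 2^(k+1) * 1 := mul_le_mul h8 h9 h10 (by positivity)
          _ = _ := mul_one _
      calc ‖c p‖ * Real.log p ≤ (B/p) * 2^(k+1) := mul_le_mul (hc p h1) h3 hlog (by positivity)
        _ = B * 2^(k+1) / p := by ring
  -- pointwise inequality on each bad interval
  have hpt : ∀ j ∈ J, lam^2 ≤ (2/δ) * (∫ t in (T + j * δ)..(T + (j+1:ℕ) * δ), ‖Z t‖^2)
      + δ * (∫ t in (T + j * δ)..(T + (j+1:ℕ) * δ), ‖Z' t‖^2) := by
    intro j hj
    obtain ⟨_, x, hx, hlt⟩ := hJ j hj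
    have e1 : T + (j+1:ℕ) * δ = T + j * δ + δ := by push_cast; ring
    rw [e1]
    have hx' : x ∈ Set.Icc (T + j * δ) (T + j * δ + δ) := by
      have e2 : T + (j:ℝ) / 2^k = T + j * δ := by rw [hδ]; ring
      have e3 : T + ((j:ℝ)+1) / 2^k = T + j * δ + δ := by rw [hδ]; ring
      rw [e2, e3] at hx
      exact hx
    have h1 := sup_le (fun t => hasDerivAt_ZZ Q c t) hZ'c (T + j * δ) hδ0 hx'
    have h2 : lam^2 ≤ ‖ZZ Q c x‖^2 := pow_le_pow_left₀ hlam.le hlt.le 2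
    exact h2.trans h1
  have hsum : (J.card : ℝ) * lam^2 ≤ (2/δ) * (∫ t in T..(T+1), ‖Z t‖^2) + δ * (∫ t in T..(T+1), ‖Z' t‖^2) := by
    have hadj : ∀ f : ℝ → ℝ, Continuous f → ∑ j ∈ Finset.range (2^k), (∫ t in (T + j * δ)..(T + (j+1:ℕ) * δ), f t)
        = ∫ t in T..(T+1), f t := by
      intro f hf
      have h1 := intervalIntegral.sum_integral_adjacent_intervals (f := f) (μ := volume)
        (a := fun j : ℕ => T + j * δ) (n := 2^k) (fun j _ => hf.intervalIntegrable _ _)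
      rw [h1]
      congr 1
      · simp
      · rw [hδ]; push_cast; field_simp
    have hsub : J ⊆ Finset.range (2^k) := fun j hj => Finset.mem_range.mpr (hJ j hj).1
    have hmono : ∀ j : ℕ, T + j * δ ≤ T + (j+1:ℕ) * δ := by
      intro j; push_cast; nlinarith
    calc (J.card : ℝ) * lam^2 = ∑ j ∈ J, lam^2 := by rw [Finset.sum_const, nsmul_eq_mul]
      _ ≤ ∑ j ∈ J, ((2/δ) * (∫ t in (T + j * δ)..(T + (j+1:ℕ) * δ), ‖Z t‖^2)
          + δ * (∫ t in (T + j * δ)..(T + (j+1:ℕ) * δ), ‖Z' t‖^2)) := Finset.sum_le_sum hpt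
      _ ≤ ∑ j ∈ Finset.range (2^k), ((2/δ) * (∫ t in (T + j * δ)..(T + (j+1:ℕ) * δ), ‖Z t‖^2)
          + δ * (∫ t in (T + j * δ)..(T + (j+1:ℕ) * δ), ‖Z' t‖^2)) := by
          apply Finset.sum_le_sum_of_subset_of_nonneg hsub
          intro j _ _
          have h1 : 0 ≤ ∫ t in (T + j * δ)..(T + (j+1:ℕ) * δ), ‖Z t‖^2 :=
            intervalIntegral.integral_nonneg (hmono j) fun _ _ => sq_nonneg _
          have h2 : 0 ≤ ∫ t in (T + j * δ)..(T + (j+1:ℕ) * δ), ‖Z' t‖^2 :=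
            intervalIntegral.integral_nonneg (hmono j) fun _ _ => sq_nonneg _
          positivity
      _ = _ := by
          rw [Finset.sum_add_distrib, ← Finset.mul_sum, ← Finset.mul_sum,
            hadj (fun t => ‖Z t‖^2) (by fun_prop), hadj (fun t => ‖Z' t‖^2) (by fun_prop)]
  rw [le_div_iff₀ (by positivity)]
  refine hsum.trans ?_
  calc (2/δ) * (∫ t in T..(T+1), ‖Z t‖^2) + δ * (∫ t in T..(T+1), ‖Z' t‖^2)
      ≤ (2/δ) * (1200 * B^2 * δ) + δ * (4800 * B^2 / δ) :=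
        add_le_add (mul_le_mul_of_nonneg_left hi1 (by positivity)) (mul_le_mul_of_nonneg_left hi2 hδ0.le)
    _ = 7200 * B^2 := by field_simp; ring

/-- a limsup set of grid intervals with few members at each scale has dimension zero -/
lemma dimH_limsup (T : ℝ) (S : ℕ → Finset ℕ) (a : ℕ → ℝ≥0∞)
    (hS : ∀ k, ((S k).card : ℝ≥0∞) ≤ a k)
    (ha : ∀ d : ℝ, 0 < d → ∑' k, a k * (ENNReal.ofReal (1/2^k)) ^ d ≠ ∞) :
    dimH {t : ℝ | ∃ᶠ k in atTop, ∃ j ∈ S k, t ∈ Set.Icc (T + (j:ℝ)/2^k) (T+((j:ℝ)+1)/2^k)} = 0 := by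
  set A : Set ℝ := {t : ℝ | ∃ᶠ k in atTop, ∃ j ∈ S k, t ∈ Set.Icc (T + (j:ℝ)/2^k) (T+((j:ℝ)+1)/2^k)} with hA
  have key : ∀ d : ℝ≥0, 0 < d → dimH A ≤ d := by
    intro d hd
    apply dimH_le_of_hausdorffMeasure_ne_top
    have hd' : (0:ℝ) < d := by exact_mod_cast hd
    set f : ℕ → ℝ≥0∞ := fun k => a k * (ENNReal.ofReal (1/2^k)) ^ (d:ℝ) with hf
    have hlim := ENNReal.tendsto_sum_nat_add f (ha d hd')
    have hdiam : ∀ (k j : ℕ), Metric.ediam (Set.Icc (T + (j:ℝ)/2^k) (T+((j:ℝ)+1)/2^k)) ≤ ENNReal.ofReal (1/2^k) := by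
      intro k j
      rw [Real.ediam_Icc]
      apply ENNReal.ofReal_le_ofReal
      apply le_of_eq
      ring
    have h1 : μH[(d:ℝ)] A ≤ liminf (fun n : ℕ => ∑' x : (Σ m : ℕ, {j // j ∈ S (m+n)}),
        Metric.ediam (Set.Icc (T + (x.2.1:ℝ)/2^(x.1+n)) (T+((x.2.1:ℝ)+1)/2^(x.1+n))) ^ (d:ℝ)) atTop := by
      apply Measure.hausdorffMeasure_le_liminf_tsum (ι := fun n : ℕ => (Σ m : ℕ, {j // j ∈ S (m+n)}))
        (d : ℝ) A (fun n : ℕ => ENNReal.ofReal (1/2^n))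
      · have h2 : Tendsto (fun n : ℕ => ((1:ℝ)/2^n)) atTop (𝓝 0) := by
          have := tendsto_pow_atTop_nhds_zero_of_lt_one (r := (1/2:ℝ)) (by norm_num) (by norm_num)
          refine this.congr fun n => ?_
          rw [one_div_pow]
        have h3 := (ENNReal.continuous_ofReal.tendsto 0).comp h2
        rw [ENNReal.ofReal_zero] at h3
        exact h3
      · refine Filter.Eventually.of_forall fun n x => (hdiam _ _).trans ?_
        apply ENNReal.ofReal_le_ofReal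
        apply one_div_le_one_div_of_le (by positivity)
        exact pow_le_pow_right₀ (by norm_num) (by omega)
      · refine Filter.Eventually.of_forall fun n t ht => ?_
        rw [hA, Set.mem_ofPred_eq, Filter.frequently_atTop] at ht
        obtain ⟨k, hk, j, hj, htj⟩ := ht n
        rw [Set.mem_iUnion]
        have hkn : k - n + n = k := by omega
        refine ⟨⟨k - n, ⟨j, by rw [hkn]; exact hj⟩⟩, ?_⟩
        simp only
        rw [hkn]
        exact htj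
    have h2 : ∀ n : ℕ, ∑' x : (Σ m : ℕ, {j // j ∈ S (m+n)}),
        Metric.ediam (Set.Icc (T + (x.2.1:ℝ)/2^(x.1+n)) (T+((x.2.1:ℝ)+1)/2^(x.1+n))) ^ (d:ℝ)
        ≤ ∑' m, f (m + n) := by
      intro n
      rw [ENNReal.tsum_sigma (fun (m : ℕ) (j : {j // j ∈ S (m+n)}) =>
        Metric.ediam (Set.Icc (T + (j.1:ℝ)/2^(m+n)) (T+((j.1:ℝ)+1)/2^(m+n))) ^ (d:ℝ))]
      apply ENNReal.tsum_le_tsum
      intro m
      calc ∑' j : {j // j ∈ S (m+n)}, Metric.ediam (Set.Icc (T + (j.1:ℝ)/2^(m+n)) (T+((j.1:ℝ)+1)/2^(m+n))) ^ (d:ℝ)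
          ≤ ∑' j : {j // j ∈ S (m+n)}, (ENNReal.ofReal (1/2^(m+n))) ^ (d:ℝ) := by
            apply ENNReal.tsum_le_tsum
            intro j
            exact ENNReal.rpow_le_rpow (hdiam _ _) hd'.le
        _ = (S (m+n)).card * (ENNReal.ofReal (1/2^(m+n))) ^ (d:ℝ) := by
            rw [tsum_fintype, Finset.sum_const, nsmul_eq_mul, Finset.card_univ, Fintype.card_coe]
        _ ≤ f (m+n) := by
            rw [hf]
            exact mul_le_mul_left (hS _) _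
    have h3 : liminf (fun n : ℕ => ∑' x : (Σ m : ℕ, {j // j ∈ S (m+n)}),
        Metric.ediam (Set.Icc (T + (x.2.1:ℝ)/2^(x.1+n)) (T+((x.2.1:ℝ)+1)/2^(x.1+n))) ^ (d:ℝ)) atTop
        ≤ liminf (fun n : ℕ => ∑' m, f (m + n)) atTop := by
      apply Filter.liminf_le_liminf (Filter.Eventually.of_forall h2)
    rw [hlim.liminf_eq] at h3
    have h4 : μH[(d:ℝ)] A ≤ 0 := h1.trans h3
    exact ne_top_of_le_ne_top ENNReal.zero_ne_top h4
  by_contra hne
  have hpos : 0 < dimH A := pos_iff_ne_zero.mpr hne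
  obtain ⟨d, hd0, hd⟩ := ENNReal.lt_iff_exists_nnreal_btwn.mp hpos
  exact absurd (key d (by exact_mod_cast hd0)) (not_le.mpr hd)

/-- step width -/
def ww (k : ℕ) : ℕ := 2^k / (k+1) + 1

/-- prefix sets of the `k`-th block -/
def QQ (k l : ℕ) : Finset ℕ :=
  (Finset.Ico (2^(2^k)) (2^(min (2^k + l * ww k) (2^(k+1))))).filter Nat.Prime

lemma mem_QQ {k l p : ℕ} : p ∈ QQ k l ↔ p.Prime ∧ 2^k ≤ Nat.log 2 p ∧ Nat.log 2 p < min (2^k + l * ww k) (2^(k+1)) := by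
  rw [QQ, Finset.mem_filter, Finset.mem_Ico]
  constructor
  · rintro ⟨⟨h1, h2⟩, h3⟩
    exact ⟨h3, Nat.le_log_of_pow_le (by norm_num) h1, Nat.log_lt_of_lt_pow h3.ne_zero h2⟩
  · rintro ⟨h3, h1, h2⟩
    exact ⟨⟨Nat.pow_le_of_le_log h3.ne_zero h1, Nat.lt_pow_of_log_lt (by norm_num) h2⟩, h3⟩

lemma kap_of_mem_QQ {k l p : ℕ} (h : p ∈ QQ k l) : kap p = k := by
  obtain ⟨h1, h2, h3⟩ := mem_QQ.mp h
  rw [kap]
  have h4 := (lt_min_iff.mp h3).2
  exact (Nat.log_eq_iff (by right; constructor; norm_num; have := Nat.one_le_two_pow (n := k); omega)).mpr ⟨h2, h4⟩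

/-- good points -/
def Good (c : ℕ → ℂ) (t : ℝ) : Prop :=
  ∀ᶠ k : ℕ in atTop, ∀ l ≤ k + 1, ‖ZZ (QQ k l) c t‖ ≤ 1 / ((k:ℝ)+1)^2

lemma summable_aux (C : ℝ) (d : ℝ) (hd : 0 < d) :
    Summable (fun k : ℕ => (C * ((k:ℝ)+2)^5) * ((1:ℝ)/2^k)^d) := by
  set r : ℝ := (1/2:ℝ)^d with hr
  have hr0 : 0 < r := by positivity
  have hr1 : r < 1 := Real.rpow_lt_one (by norm_num) (by norm_num) hd
  have h1 : Summable (fun n : ℕ => ((n:ℝ)^5 : ℝ) * r^n) :=
    summable_pow_mul_geometric_of_norm_lt_one 5 (by rw [Real.norm_of_nonneg hr0.le]; exact hr1)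
  have h2 : Summable (fun n : ℕ => (((n+2:ℕ):ℝ)^5 : ℝ) * r^(n+2)) := (summable_nat_add_iff 2).mpr h1
  have h3 := h2.mul_left (C / r^2)
  refine h3.congr fun k => ?_
  have h4 : ((1:ℝ)/2^k)^d = r^k := by
    rw [hr, ← one_div_pow, ← Real.rpow_natCast, ← Real.rpow_mul (by norm_num), ← Real.rpow_natCast,
      ← Real.rpow_mul (by norm_num), mul_comm]
  rw [h4]
  push_cast
  field_simp
  ring

lemma dimH_bad (c : ℕ → ℂ) {B : ℝ} (hB : 0 ≤ B) (hc : ∀ p, p.Prime → ‖c p‖ ≤ B / p) :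
    dimH {t : ℝ | ¬ Good c t} = 0 := by
  have hcov : {t : ℝ | ¬ Good c t} ⊆ ⋃ T : ℤ, {t : ℝ | ¬ Good c t} ∩ Set.Ico (T:ℝ) ((T:ℝ)+1) := by
    intro t ht
    rw [Set.mem_iUnion]
    exact ⟨⌊t⌋, ht, Int.floor_le t, Int.lt_floor_add_one t⟩
  have hle := dimH_mono hcov
  rw [dimH_iUnion] at hle
  have hzero : ∀ T : ℤ, dimH ({t : ℝ | ¬ Good c t} ∩ Set.Ico (T:ℝ) ((T:ℝ)+1)) = 0 := by
    intro T
    classical
    set bad : ℕ → ℕ → Finset ℕ := fun k l => (Finset.range (2^k)).filter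
      (fun j => ∃ x ∈ Set.Icc ((T:ℝ) + (j:ℝ) / 2^k) ((T:ℝ) + ((j:ℝ)+1)/2^k), 1/((k:ℝ)+1)^2 < ‖ZZ (QQ k l) c x‖) with hbad
    set S : ℕ → Finset ℕ := fun k => (Finset.range (k+2)).biUnion (bad k) with hSdef
    have hcard : ∀ k, ((S k).card : ℝ) ≤ (7200 * B^2) * ((k:ℝ)+2)^5 := by
      intro k
      have h1 : ((S k).card : ℝ) ≤ ∑ l ∈ Finset.range (k+2), ((bad k l).card : ℝ) := by
        exact_mod_cast Finset.card_biUnion_le
      have h2 : ∀ l ∈ Finset.range (k+2), ((bad k l).card : ℝ) ≤ 7200 * B^2 / (1/((k:ℝ)+1)^2)^2 := by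
        intro l _
        apply bad_count c hB hc k (QQ k l) (fun p hp => ⟨(mem_QQ.mp hp).1, kap_of_mem_QQ hp⟩) (T:ℝ) (by positivity)
        intro j hj
        rw [hbad, Finset.mem_filter, Finset.mem_range] at hj
        exact hj
      have h3 := Finset.sum_le_sum h2
      rw [Finset.sum_const, Finset.card_range, nsmul_eq_mul] at h3
      refine h1.trans (h3.trans ?_)
      have h4 : 7200 * B^2 / (1/((k:ℝ)+1)^2)^2 = 7200 * B^2 * ((k:ℝ)+1)^4 := by
        field_simp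
      rw [h4]
      have h5 : ((k:ℝ)+1)^4 ≤ ((k:ℝ)+2)^4 := pow_le_pow_left₀ (by positivity) (by linarith) 4
      push_cast
      calc ((k:ℝ)+2) * (7200 * B^2 * ((k:ℝ)+1)^4) ≤ ((k:ℝ)+2) * (7200 * B^2 * ((k:ℝ)+2)^4) := by gcongr
        _ = _ := by ring
    have hdim := dimH_limsup (T:ℝ) S (fun k => ENNReal.ofReal ((7200 * B^2) * ((k:ℝ)+2)^5)) (by
      intro k
      rw [← ENNReal.ofReal_natCast]
      exact ENNReal.ofReal_le_ofReal (hcard k)) (by
      intro d hd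
      have h1 : ∀ k : ℕ, ENNReal.ofReal ((7200 * B^2) * ((k:ℝ)+2)^5) * (ENNReal.ofReal (1/2^k)) ^ d
          = ENNReal.ofReal (((7200 * B^2) * ((k:ℝ)+2)^5) * ((1:ℝ)/2^k)^d) := by
        intro k
        rw [ENNReal.ofReal_rpow_of_nonneg (by positivity) hd.le, ← ENNReal.ofReal_mul (by positivity)]
      rw [tsum_congr h1]
      exact (summable_aux (7200 * B^2) d hd).tsum_ofReal_ne_top)
    have hsub : {t : ℝ | ¬ Good c t} ∩ Set.Ico (T:ℝ) ((T:ℝ)+1) ⊆
        {t : ℝ | ∃ᶠ k in atTop, ∃ j ∈ S k, t ∈ Set.Icc ((T:ℝ) + (j:ℝ)/2^k) ((T:ℝ)+((j:ℝ)+1)/2^k)} := by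
      rintro t ⟨ht, htT⟩
      have h1 : ∃ᶠ k : ℕ in atTop, ¬ (∀ l ≤ k + 1, ‖ZZ (QQ k l) c t‖ ≤ 1 / ((k:ℝ)+1)^2) :=
        Filter.not_eventually.mp ht
      refine h1.mono fun k hk => ?_
      push Not at hk
      obtain ⟨l, hl, hlt⟩ := hk
      have h0 : 0 ≤ (t - T) * 2^k := mul_nonneg (by linarith [htT.1]) (by positivity)
      set j := ⌊(t - T) * 2^k⌋₊ with hj
      have hj1 : (j:ℝ) ≤ (t - T) * 2^k := Nat.floor_le h0
      have hj2 : (t - T) * 2^k < j + 1 := Nat.lt_floor_add_one _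
      have hj3 : j < 2^k := by
        have h2 : (t - T) * 2^k < 2^k := by
          have : t - T < 1 := by linarith [htT.2]
          have h3 : (0:ℝ) < 2^k := by positivity
          nlinarith
        have h3 : (j:ℝ) < 2^k := lt_of_le_of_lt hj1 h2
        exact_mod_cast h3
      have hmem : t ∈ Set.Icc ((T:ℝ) + (j:ℝ)/2^k) ((T:ℝ)+((j:ℝ)+1)/2^k) := by
        have h3 : (0:ℝ) < 2^k := by positivity
        constructor
        · have : (j:ℝ)/2^k ≤ t - T := by rw [div_le_iff₀ h3]; exact hj1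
          linarith
        · have : t - T ≤ ((j:ℝ)+1)/2^k := by rw [le_div_iff₀ h3]; exact hj2.le
          linarith
      refine ⟨j, ?_, hmem⟩
      rw [hSdef, Finset.mem_biUnion]
      refine ⟨l, Finset.mem_range.mpr (by omega), ?_⟩
      rw [hbad, Finset.mem_filter, Finset.mem_range]
      exact ⟨hj3, t, hmem, hlt⟩
    exact le_antisymm ((dimH_mono hsub).trans hdim.le) zero_le
  simp only [hzero, iSup_const] at hle
  exact le_antisymm hle zero_le

/-- the term at a prime, zero elsewhere -/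
noncomputable def gg (c : ℕ → ℂ) (t : ℝ) (n : ℕ) : ℂ := if n.Prime then c n * ee n t else 0

lemma sum_gg (c : ℕ → ℂ) (t : ℝ) (Q : Finset ℕ) : ∑ n ∈ Q, gg c t n = ZZ (Q.filter Nat.Prime) c t := by
  rw [ZZ, Finset.sum_filter]
  rfl

/-- partial sums over primes -/
noncomputable def SS (c : ℕ → ℂ) (t : ℝ) (N : ℕ) : ℂ := ∑ n ∈ Finset.range N, gg c t n

lemma SS_sub (c : ℕ → ℂ) (t : ℝ) {M N : ℕ} (h : M ≤ N) : SS c t N - SS c t M = ∑ n ∈ Finset.Ico M N, gg c t n :=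
  (Finset.sum_Ico_eq_sub _ h).symm

lemma ww_pos (k : ℕ) : 0 < ww k := Nat.succ_pos _

lemma ww_mul (k : ℕ) : 2^k ≤ (k+1) * ww k := by
  rw [ww]
  have h1 := Nat.div_add_mod (2^k) (k+1)
  have h2 : 2^k % (k+1) < k+1 := Nat.mod_lt _ (Nat.succ_pos k)
  rw [mul_add, mul_one]
  omega

lemma ww_le (k : ℕ) : (ww k : ℝ) ≤ 2^k / ((k:ℝ)+1) + 1 := by
  rw [ww]
  push_cast
  have := Nat.cast_div_le (α := ℝ) (m := 2^k) (n := k+1)
  push_cast at this
  linarith

lemma level_diff (c : ℕ → ℂ) (t : ℝ) (k : ℕ) :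
    SS c t (2^(2^(k+1))) - SS c t (2^(2^k)) = ZZ (QQ k (k+1)) c t := by
  rw [SS_sub c t (Nat.pow_le_pow_right (by norm_num) (Nat.pow_le_pow_right (by norm_num) (Nat.le_succ k))), sum_gg, QQ]
  congr 3
  rw [min_eq_right]
  rw [pow_succ, mul_two]
  exact Nat.add_le_add_left (ww_mul k) _

lemma norm_gg_sum_le (c : ℕ → ℂ) {B : ℝ} (hB : 0 ≤ B) (hc : ∀ p, p.Prime → ‖c p‖ ≤ B / p) (t : ℝ)
    (k a w M N : ℕ) (ha : 2^k ≤ a) (hM : 2^a ≤ M) (hN : N ≤ 2^(a + w)) :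
    ‖∑ n ∈ Finset.Ico M N, gg c t n‖ ≤ B * (w * (4 / 2^k)) := by
  rw [sum_gg, ZZ]
  refine (norm_sum_le _ _).trans ?_
  set Q := (Finset.Ico M N).filter Nat.Prime with hQ
  have hmaps : ∀ p ∈ Q, Nat.log 2 p ∈ Finset.Ico a (a+w) := by
    intro p hp
    rw [hQ, Finset.mem_filter, Finset.mem_Ico] at hp
    rw [Finset.mem_Ico]
    exact ⟨Nat.le_log_of_pow_le (by norm_num) (hM.trans hp.1.1),
      Nat.log_lt_of_lt_pow hp.2.ne_zero (lt_of_lt_of_le hp.1.2 hN)⟩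
  have h1 : ∑ p ∈ Q, ‖c p * ee p t‖ ≤ ∑ p ∈ Q, B * (1 / (p:ℝ)) := by
    apply Finset.sum_le_sum
    intro p hp
    rw [hQ, Finset.mem_filter] at hp
    rw [norm_mul, norm_ee, mul_one]
    refine (hc p hp.2).trans (le_of_eq ?_)
    ring
  refine h1.trans ?_
  rw [← Finset.mul_sum]
  apply mul_le_mul_of_nonneg_left _ hB
  rw [← Finset.sum_fiberwise_of_maps_to hmaps]
  have h2 : ∀ n ∈ Finset.Ico a (a+w), ∑ p ∈ Q.filter (fun p => Nat.log 2 p = n), (1 / (p:ℝ)) ≤ 4 / 2^k := by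
    intro n hn
    rw [Finset.mem_Ico] at hn
    have hn1 : 1 ≤ n := (Nat.one_le_two_pow).trans (ha.trans hn.1)
    have h3 := sum_inv_block n hn1 (Q.filter (fun p => Nat.log 2 p = n)) (by
      intro p hp
      rw [Finset.mem_filter, hQ, Finset.mem_filter] at hp
      exact ⟨hp.1.2, hp.2⟩)
    refine h3.trans ?_
    have h4 : (2:ℝ)^k ≤ n := by exact_mod_cast ha.trans hn.1
    exact div_le_div_of_nonneg_left (by norm_num) (by positivity) h4
  have h3 := Finset.sum_le_sum h2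
  rw [Finset.sum_const, Nat.card_Ico, Nat.add_sub_cancel_left, nsmul_eq_mul] at h3
  exact h3

lemma inner_diff (c : ℕ → ℂ) {B : ℝ} (hB : 0 ≤ B) (hc : ∀ p, p.Prime → ‖c p‖ ≤ B / p) (t : ℝ)
    (k N : ℕ) (h1 : 2^(2^k) ≤ N) (h2 : N < 2^(2^(k+1))) :
    ∃ l ≤ k + 1, ‖SS c t N - SS c t (2^(2^k)) - ZZ (QQ k l) c t‖ ≤ B * (ww k * (4/2^k)) := by
  have hN0 : N ≠ 0 := by
    have : 0 < 2^(2^k) := by positivity
    omega
  set n := Nat.log 2 N with hn
  have hn1 : 2^k ≤ n := Nat.le_log_of_pow_le (by norm_num) h1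
  have hn2 : n < 2^(k+1) := Nat.log_lt_of_lt_pow hN0 h2
  set l := (n - 2^k) / ww k with hl
  have hdm := Nat.div_add_mod (n - 2^k) (ww k)
  have hmod := Nat.mod_lt (n - 2^k) (ww_pos k)
  rw [← hl] at hdm
  have hlw : 2^k + l * ww k ≤ n := by
    rw [mul_comm]; omega
  have hlw2 : n < 2^k + l * ww k + ww k := by
    rw [mul_comm l]; omega
  have hl1 : l ≤ k + 1 := by
    by_contra hcon
    push Not at hcon
    have h3 : (k+1) * ww k ≤ l * ww k := Nat.mul_le_mul_right _ hcon.le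
    have h4 := ww_mul k
    rw [pow_succ, mul_two] at hn2
    omega
  refine ⟨l, hl1, ?_⟩
  have hM : 2^(2^k + l * ww k) ≤ N := Nat.pow_le_of_le_log hN0 hlw
  have hM0 : 2^(2^k) ≤ 2^(2^k + l * ww k) := Nat.pow_le_pow_right (by norm_num) (by omega)
  have h5 : SS c t N - SS c t (2^(2^k)) - ZZ (QQ k l) c t
      = ∑ n ∈ Finset.Ico (2^(2^k + l * ww k)) N, gg c t n := by
    have h6 : ZZ (QQ k l) c t = SS c t (2^(2^k + l * ww k)) - SS c t (2^(2^k)) := by
      rw [SS_sub c t hM0, sum_gg, QQ]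
      congr 3
      rw [min_eq_left]
      omega
    rw [h6, ← SS_sub c t hM]
    ring
  rw [h5]
  apply norm_gg_sum_le c hB hc t k (2^k + l * ww k) (ww k) _ _ (by omega) le_rfl
  have := Nat.lt_pow_succ_log_self (b := 2) (by norm_num) N
  refine this.le.trans (Nat.pow_le_pow_right (by norm_num) ?_)
  rw [← hn]
  omega

lemma tendsto_of_good (c : ℕ → ℂ) {B : ℝ} (hB : 0 ≤ B) (hc : ∀ p, p.Prime → ‖c p‖ ≤ B / p) {t : ℝ}
    (ht : Good c t) : ∃ ℓ : ℂ, Tendsto (SS c t) atTop (𝓝 ℓ) := by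
  -- the level sequence
  have hcau : ∃ ℓ : ℂ, Tendsto (fun k : ℕ => SS c t (2^(2^k))) atTop (𝓝 ℓ) := by
    obtain ⟨k0, hk0⟩ := Filter.eventually_atTop.mp ht
    have hsum : Summable (fun k : ℕ => ZZ (QQ k (k+1)) c t) := by
      have hs : Summable (fun k : ℕ => 1 / ((k:ℝ)+1)^2) := by
        have := (summable_nat_add_iff 1).mpr (Real.summable_one_div_nat_pow.mpr (show 1 < 2 by norm_num))
        refine this.congr fun k => ?_
        push_cast; rfl
      apply Summable.of_norm_bounded_eventually_nat hs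
      filter_upwards [Filter.eventually_ge_atTop k0] with k hk
      exact hk0 k hk (k+1) le_rfl
    have h1 := hsum.hasSum.tendsto_sum_nat
    refine ⟨SS c t (2^(2^0)) + ∑' k, ZZ (QQ k (k+1)) c t, ?_⟩
    refine (h1.const_add (SS c t (2^(2^0)))).congr fun K => ?_
    have h2 : ∀ k, ZZ (QQ k (k+1)) c t = SS c t (2^(2^(k+1))) - SS c t (2^(2^k)) := fun k => (level_diff c t k).symm
    rw [Finset.sum_congr rfl (fun k _ => h2 k), Finset.sum_range_sub (fun k => SS c t (2^(2^k)))]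
    ring
  obtain ⟨ℓ, hℓ⟩ := hcau
  refine ⟨ℓ, ?_⟩
  set κ : ℕ → ℕ := fun N => Nat.log 2 (Nat.log 2 N) with hκ
  have hκt : Tendsto κ atTop atTop := by
    have h1 : Tendsto (fun n : ℕ => Nat.log 2 n) atTop atTop := by
      rw [tendsto_atTop]
      intro b
      filter_upwards [Filter.eventually_ge_atTop (2^b)] with n hn
      exact Nat.le_log_of_pow_le (by norm_num) hn
    exact h1.comp h1
  have herr : Tendsto (fun k : ℕ => 1 / ((k:ℝ)+1)^2 + B * (4 / ((k:ℝ)+1) + 4/2^k)) atTop (𝓝 0) := by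
    have h1 : Tendsto (fun k : ℕ => 1 / ((k:ℝ)+1)) atTop (𝓝 0) := tendsto_one_div_add_atTop_nhds_zero_nat
    have h2 : Tendsto (fun n : ℕ => ((1/2:ℝ))^n) atTop (𝓝 0) :=
      tendsto_pow_atTop_nhds_zero_of_lt_one (r := (1/2:ℝ)) (by norm_num) (by norm_num)
    have h3 : Tendsto (fun k : ℕ => (1 / ((k:ℝ)+1))^2 + B * (4 * (1 / ((k:ℝ)+1)) + 4*(1/2)^k)) atTop
        (𝓝 (0^2 + B * (4 * 0 + 4 * 0))) :=
      (h1.pow 2).add (((h1.const_mul 4).add (h2.const_mul 4)).const_mul B)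
    have h4 : ((0:ℝ)^2 + B * (4 * 0 + 4 * 0)) = 0 := by ring
    rw [h4] at h3
    refine h3.congr fun k => ?_
    rw [one_div_pow, one_div_pow]
    ring
  have hbd : ∀ᶠ N : ℕ in atTop, ‖SS c t N - SS c t (2^(2^(κ N)))‖ ≤
      1 / (((κ N : ℕ):ℝ)+1)^2 + B * (4 / (((κ N : ℕ):ℝ)+1) + 4/2^(κ N)) := by
    filter_upwards [hκt.eventually ht, Filter.eventually_ge_atTop 2] with N hN hN2
    have hlog : Nat.log 2 N ≠ 0 := by
      have : 1 ≤ Nat.log 2 N := Nat.log_pos (by norm_num) hN2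
      omega
    have h1 : 2^(2^(κ N)) ≤ N := by
      apply Nat.pow_le_of_le_log (by omega)
      exact Nat.pow_log_le_self 2 hlog
    have h2 : N < 2^(2^(κ N + 1)) := by
      apply Nat.lt_pow_of_log_lt (by norm_num)
      exact Nat.lt_pow_succ_log_self (by norm_num) _
    obtain ⟨l, hl, h3⟩ := inner_diff c hB hc t (κ N) N h1 h2
    have h4 := hN l hl
    have h5 : B * (ww (κ N) * (4/2^(κ N))) ≤ B * (4 / (((κ N : ℕ):ℝ)+1) + 4/2^(κ N)) := by
      apply mul_le_mul_of_nonneg_left _ hB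
      have h6 := ww_le (κ N)
      calc (ww (κ N) : ℝ) * (4/2^(κ N)) ≤ (2^(κ N) / (((κ N : ℕ):ℝ)+1) + 1) * (4/2^(κ N)) :=
            mul_le_mul_of_nonneg_right h6 (by positivity)
        _ = _ := by field_simp
    calc ‖SS c t N - SS c t (2^(2^(κ N)))‖ = ‖ZZ (QQ (κ N) l) c t + (SS c t N - SS c t (2^(2^(κ N))) - ZZ (QQ (κ N) l) c t)‖ := by
          congr 1; ring
      _ ≤ ‖ZZ (QQ (κ N) l) c t‖ + ‖SS c t N - SS c t (2^(2^(κ N))) - ZZ (QQ (κ N) l) c t‖ := norm_add_le _ _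
      _ ≤ _ := add_le_add h4 (h3.trans h5)
  have hdiff : Tendsto (fun N => SS c t N - SS c t (2^(2^(κ N)))) atTop (𝓝 0) :=
    squeeze_zero_norm' hbd (herr.comp hκt)
  have hfin := hdiff.add (hℓ.comp hκt)
  rw [zero_add] at hfin
  refine hfin.congr fun N => ?_
  simp

lemma abel_zero (f : ℕ → ℂ) (hS : ∀ w : ℂ, 0 < w.re → LSeriesSummable f w)
    (h : Tendsto (fun n => ∑ k ∈ Finset.Icc 1 n, f k) atTop (𝓝 0)) (K : ℝ) :
    Tendsto (LSeries f) (𝓝[{w : ℂ | 0 < w.re ∧ |w.im| ≤ K * w.re}] 0) (𝓝 0) := by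
  set A : ℕ → ℂ := fun n => ∑ k ∈ Finset.Icc 1 n, f k with hA
  obtain ⟨M, hM0, hM⟩ : ∃ M : ℝ, 0 < M ∧ ∀ n, ‖A n‖ ≤ M := by
    obtain ⟨R, hR⟩ := h.norm.bddAbove_range
    refine ⟨max R 1, by positivity, fun n => le_max_of_le_left (hR ⟨n, rfl⟩)⟩
  have hO : (fun n : ℕ => ∑ k ∈ Finset.Icc 1 n, f k) =O[atTop] (fun n : ℕ => (n:ℝ)^(0:ℝ)) := by
    apply Asymptotics.IsBigO.of_bound M
    refine Filter.Eventually.of_forall fun n => ?_
    simp only [Real.rpow_zero, norm_one, mul_one]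
    exact hM n
  -- the basic inequality
  have key : ∀ ε : ℝ, 0 < ε → ∃ C : ℝ, 0 ≤ C ∧ ∀ w : ℂ, 0 < w.re → ‖LSeries f w‖ ≤ ‖w‖ * (ε / w.re + C) := by
    intro ε hε
    obtain ⟨N0, hN0⟩ : ∃ N0 : ℕ, ∀ n ≥ N0, ‖A n‖ ≤ ε := by
      have h1 := (tendsto_zero_iff_norm_tendsto_zero.mp h).eventually (ge_mem_nhds hε)
      exact Filter.eventually_atTop.mp h1
    refine ⟨M * N0, by positivity, fun w hw => ?_⟩
    rw [LSeries_eq_mul_integral f le_rfl hw (hS w hw) hO, norm_mul]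
    apply mul_le_mul_of_nonneg_left _ (norm_nonneg w)
    have hpt : ∀ t ∈ Set.Ioi (1:ℝ), ‖(∑ k ∈ Finset.Icc 1 ⌊t⌋₊, f k) * (t:ℂ) ^ (-(w+1))‖ ≤
        ε * t ^ (-(w.re+1)) + (M * N0) * t ^ (-(w.re+2)) := by
      intro t ht
      have ht1 : (1:ℝ) < t := ht
      have ht0 : (0:ℝ) < t := by linarith
      rw [norm_mul, Complex.norm_cpow_eq_rpow_re_of_pos ht0]
      have e1 : (-(w+1)).re = -(w.re+1) := by simp
      rw [e1]
      have e2 : t ^ (-(w.re+2)) = t ^ (-(w.re+1)) * t⁻¹ := by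
        rw [← Real.rpow_neg_one, ← Real.rpow_add ht0]; congr 1; ring
      rw [e2]
      have hp : 0 < t ^ (-(w.re+1)) := Real.rpow_pos_of_pos ht0 _
      have h2 : ‖∑ k ∈ Finset.Icc 1 ⌊t⌋₊, f k‖ ≤ ε + M * N0 * t⁻¹ := by
        by_cases hc : N0 ≤ ⌊t⌋₊
        · have := hN0 _ hc
          have h3 : 0 ≤ M * N0 * t⁻¹ := by positivity
          exact this.trans (by linarith)
        · have hlt : t < N0 := by
            push Not at hc
            exact (Nat.floor_lt ht0.le).mp hc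
          have h3 : M ≤ M * N0 * t⁻¹ := by
            rw [mul_assoc]
            apply le_mul_of_one_le_right hM0.le
            rw [← div_eq_mul_inv, le_div_iff₀ ht0]
            linarith
          exact (hM _).trans (by linarith)
      calc ‖∑ k ∈ Finset.Icc 1 ⌊t⌋₊, f k‖ * t ^ (-(w.re+1)) ≤ (ε + M * N0 * t⁻¹) * t ^ (-(w.re+1)) :=
            mul_le_mul_of_nonneg_right h2 hp.le
        _ = _ := by ring
    have hi1 : IntegrableOn (fun t : ℝ => t ^ (-(w.re+1))) (Set.Ioi 1) :=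
      integrableOn_Ioi_rpow_of_lt (by linarith) one_pos
    have hi2 : IntegrableOn (fun t : ℝ => t ^ (-(w.re+2))) (Set.Ioi 1) :=
      integrableOn_Ioi_rpow_of_lt (by linarith) one_pos
    have h3 := norm_integral_le_of_norm_le (μ := volume.restrict (Set.Ioi (1:ℝ)))
      ((hi1.const_mul ε).add (hi2.const_mul (M * N0)))
      ((ae_restrict_iff' measurableSet_Ioi).mpr (Filter.Eventually.of_forall hpt))
    refine h3.trans ?_
    simp only [Pi.add_apply]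
    rw [integral_add (hi1.const_mul ε) (hi2.const_mul (M * N0)), integral_const_mul, integral_const_mul,
      integral_Ioi_rpow_of_lt (by linarith) one_pos, integral_Ioi_rpow_of_lt (by linarith) one_pos]
    rw [Real.one_rpow, Real.one_rpow]
    have e3 : ε * (-1 / (-(w.re+1) + 1)) = ε / w.re := by
      rw [show -(w.re+1) + 1 = -w.re by ring]
      field_simp
    have e4 : (-1:ℝ) / (-(w.re+2) + 1) ≤ 1 := by
      rw [show -(w.re+2) + 1 = -(w.re + 1) by ring, neg_div_neg_eq, div_le_one (by linarith)]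
      linarith
    rw [e3]
    have : M * N0 * (-1 / (-(w.re+2) + 1)) ≤ M * N0 * 1 := mul_le_mul_of_nonneg_left e4 (by positivity)
    linarith
  rw [Metric.tendsto_nhdsWithin_nhds]
  intro η hη
  obtain ⟨C, hC0, hC⟩ := key (η / (2 * (1 + |K|))) (by positivity)
  refine ⟨η / (2 * (C + 1)), by positivity, ?_⟩
  rintro w ⟨hw1, hw2⟩ hdist
  rw [dist_zero_right] at hdist ⊢
  have h1 := hC w hw1
  have h2 : ‖w‖ ≤ (1 + |K|) * w.re := by
    have := Complex.norm_le_abs_re_add_abs_im w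
    rw [abs_of_pos hw1] at this
    have h3 : K * w.re ≤ |K| * w.re := mul_le_mul_of_nonneg_right (le_abs_self K) hw1.le
    linarith
  have h3 : ‖w‖ * (η / (2 * (1 + |K|)) / w.re) ≤ η / 2 := by
    calc ‖w‖ * (η / (2 * (1 + |K|)) / w.re) ≤ ((1 + |K|) * w.re) * (η / (2 * (1 + |K|)) / w.re) :=
          mul_le_mul_of_nonneg_right h2 (by positivity)
      _ = η / 2 := by
          have : (1 + |K|) ≠ 0 := by positivity
          field_simp
  have h4 : ‖w‖ * C < η / 2 := by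
    have h5 : ‖w‖ * C ≤ (η / (2 * (C + 1))) * C := mul_le_mul_of_nonneg_right hdist.le hC0
    have h6 : (η / (2 * (C + 1))) * C < η / 2 := by
      rw [div_mul_eq_mul_div, div_lt_div_iff₀ (by positivity) (by norm_num)]
      nlinarith
    exact lt_of_le_of_lt h5 h6
  calc ‖LSeries f w‖ ≤ ‖w‖ * (η / (2 * (1 + |K|)) / w.re + C) := h1
    _ = ‖w‖ * (η / (2 * (1 + |K|)) / w.re) + ‖w‖ * C := by ring
    _ < η := by linarith

lemma abel_stolz (f : ℕ → ℂ) (hS : ∀ w : ℂ, 0 < w.re → LSeriesSummable f w) {ℓ : ℂ}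
    (h : Tendsto (fun n => ∑ k ∈ Finset.Icc 1 n, f k) atTop (𝓝 ℓ)) (K : ℝ) :
    Tendsto (LSeries f) (𝓝[{w : ℂ | 0 < w.re ∧ |w.im| ≤ K * w.re}] 0) (𝓝 ℓ) := by
  set d : ℕ → ℂ := fun n => if n = 1 then ℓ else 0 with hd
  have hdterm : ∀ w : ℂ, LSeries.term d w = fun n => if n = 1 then ℓ else 0 := by
    intro w
    funext n
    rw [LSeries.term_def, hd]
    by_cases h1 : n = 1
    · subst h1; simp
    · by_cases h0 : n = 0
      · simp [h0]
      · simp [h1]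
  have hdS : ∀ w : ℂ, LSeriesSummable d w := by
    intro w
    rw [LSeriesSummable, hdterm]
    exact summable_of_ne_finset_zero (s := {1}) (fun n hn => by
      rw [Finset.mem_singleton] at hn
      simp [hn])
  have hdL : ∀ w : ℂ, LSeries d w = ℓ := by
    intro w
    rw [LSeries, hdterm, tsum_ite_eq]
  have h1 : Tendsto (fun n => ∑ k ∈ Finset.Icc 1 n, (f - d) k) atTop (𝓝 0) := by
    have h2 := h.sub_const ℓ
    rw [sub_self] at h2
    refine h2.congr' ?_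
    filter_upwards [Filter.eventually_ge_atTop 1] with n hn
    simp only [Pi.sub_apply]
    rw [Finset.sum_sub_distrib]
    congr 1
    rw [hd, Finset.sum_ite_eq', if_pos (Finset.mem_Icc.mpr ⟨le_rfl, hn⟩)]
  have h2 := abel_zero (f - d) (fun w hw => (hS w hw).sub (hdS w)) h1 K
  have h3 := h2.add_const ℓ
  rw [zero_add] at h3
  refine h3.congr' ?_
  filter_upwards [self_mem_nhdsWithin] with w hw
  rw [LSeries_sub (hS w hw.1) (hdS w), hdL]
  ring

end Pool.Agent.H3
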