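import Mathlib

/-!
# Logarithms of local factors

The logarithm of the inverse of a polynomial with constant term one, all of whose roots have the same
absolute value, and its linear approximation.
-/

open Complex Filter Topology Polynomial

namespace Pool.Agent.H3

lemma aux_log {z : ℂ} (hz : ‖z‖ ≤ 1/2) : ‖-Complex.log (1 - z) - z‖ ≤ ‖z‖^2 := by
  have h1 : ‖z‖ < 1 := by linarith
  have h := Complex.norm_log_one_sub_inv_sub_self_le h1
  have h2 : Complex.log (1 - z)⁻¹ = - Complex.log (1 - z) := by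
    apply Complex.log_inv
    have : 0 < (1 - z).re := by
      have := Complex.abs_re_le_norm z
      have := abs_le.mp this
      simp; linarith
    intro h3
    rw [Complex.arg_eq_pi_iff] at h3
    linarith [h3.1]
  rw [h2] at h
  refine h.trans ?_
  have h4 : (1 - ‖z‖)⁻¹ ≤ 2 := by
    rw [inv_le_comm₀ (by linarith) (by norm_num)]; linarith
  have := norm_nonneg z
  nlinarith [sq_nonneg ‖z‖]

/-- factorisation of a polynomial with constant term one over the inverse roots -/
lemma eval_eq_prod_inv {P : ℂ[X]} (h0 : P.coeff 0 = 1) (x : ℂ) :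
    P.eval x = (P.roots.map (fun z => 1 - z⁻¹ * x)).prod := by
  have hs : P.Splits := IsAlgClosed.splits P
  have h1 := hs.eval_eq_prod_roots x
  have h2 := hs.eval_eq_prod_roots 0
  rw [← coeff_zero_eq_eval_zero, h0] at h2
  have hP : P ≠ 0 := by
    rintro rfl; simp at h0
  have hne : ∀ z ∈ P.roots, z ≠ 0 := by
    intro z hz h
    rw [mem_roots hP, IsRoot.def, h, ← coeff_zero_eq_eval_zero, h0] at hz
    exact one_ne_zero hz
  have h3 : (P.roots.map (fun z => x - z)).prod
      = (P.roots.map (fun z => 0 - z)).prod * (P.roots.map (fun z => 1 - z⁻¹ * x)).prod := by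
    rw [← Multiset.prod_map_mul]
    congr 1
    refine Multiset.map_congr rfl fun z hz => ?_
    have := hne z hz
    field_simp
    ring
  rw [h1, h3, ← mul_assoc, ← h2, one_mul]

/-- the sum of the inverse roots -/
noncomputable def tr (P : ℂ[X]) : ℂ := (P.roots.map (fun z => z⁻¹)).sum

/-- logarithm of the local factor -/
noncomputable def G (P : ℂ[X]) (x : ℂ) : ℂ := (P.roots.map (fun z => -Complex.log (1 - z⁻¹ * x))).sum

lemma norm_multiset_sum_le {m : Multiset ℂ} {f : ℂ → ℂ} {C : ℝ} (h : ∀ z ∈ m, ‖f z‖ ≤ C) :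
    ‖(m.map f).sum‖ ≤ Multiset.card m * C := by
  induction m using Multiset.induction_on with
  | empty => simp
  | cons a m ih =>
    rw [Multiset.map_cons, Multiset.sum_cons, Multiset.card_cons]
    refine (norm_add_le _ _).trans ?_
    have h1 := h a (Multiset.mem_cons_self a m)
    have h2 := ih (fun z hz => h z (Multiset.mem_cons_of_mem hz))
    push_cast
    linarith

section
variable {P : ℂ[X]} {b : ℕ} {R : ℝ}

lemma card_roots_le (hb : P.natDegree ≤ b) : (Multiset.card P.roots : ℝ) ≤ b := by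
  exact_mod_cast (card_roots' P).trans hb

lemma norm_tr_le (hb : P.natDegree ≤ b) (hR : 0 < R) (hP : P ≠ 0)
    (hroot : ∀ z, P.eval z = 0 → ‖z‖ = R) : ‖tr P‖ ≤ b * R⁻¹ := by
  have h1 : ‖tr P‖ ≤ Multiset.card P.roots * R⁻¹ := by
    apply norm_multiset_sum_le
    intro z hz
    rw [mem_roots hP] at hz
    rw [norm_inv, hroot z hz]
  exact h1.trans (mul_le_mul_of_nonneg_right (card_roots_le hb) (inv_nonneg.mpr hR.le))

lemma exp_G (h0 : P.coeff 0 = 1)
    (hroot : ∀ z, P.eval z = 0 → ‖z‖ = R) {x : ℂ} (hx : ‖x‖ * R⁻¹ ≤ 1/2) :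
    Complex.exp (G P x) = (P.eval x)⁻¹ := by
  have hP : P ≠ 0 := by
    rintro rfl; simp at h0
  rw [eval_eq_prod_inv h0, G]
  have key : ∀ m : Multiset ℂ, (∀ z ∈ m, ‖z‖ = R) →
      Complex.exp ((m.map (fun z => -Complex.log (1 - z⁻¹ * x))).sum)
       = ((m.map (fun z => 1 - z⁻¹ * x)).prod)⁻¹ := by
    intro m hm
    induction m using Multiset.induction_on with
    | empty => simp
    | cons a m ih =>
      rw [Multiset.map_cons, Multiset.sum_cons, Multiset.map_cons, Multiset.prod_cons,
        Complex.exp_add, ih (fun z hz => hm z (Multiset.mem_cons_of_mem hz)), mul_inv]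
      congr 1
      rw [Complex.exp_neg, Complex.exp_log]
      intro h
      have h1 : a⁻¹ * x = 1 := by
        linear_combination -h
      have h2 : ‖a⁻¹ * x‖ ≤ 1/2 := by
        rw [norm_mul, norm_inv, hm a (Multiset.mem_cons_self a m), mul_comm]
        exact hx
      rw [h1] at h2
      norm_num at h2
  apply key
  intro z hz
  rw [mem_roots hP] at hz
  exact hroot z hz

lemma norm_G_sub_le (hb : P.natDegree ≤ b) (hP : P ≠ 0)
    (hroot : ∀ z, P.eval z = 0 → ‖z‖ = R) {x : ℂ} (hx : ‖x‖ * R⁻¹ ≤ 1/2) :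
    ‖G P x - tr P * x‖ ≤ b * (‖x‖ * R⁻¹)^2 := by
  have h1 : G P x - tr P * x = (P.roots.map (fun z => -Complex.log (1 - z⁻¹ * x) - z⁻¹ * x)).sum := by
    rw [G, tr, Multiset.sum_map_sub, Multiset.sum_map_mul_right]
  rw [h1]
  have h2 : ‖(P.roots.map (fun z => -Complex.log (1 - z⁻¹ * x) - z⁻¹ * x)).sum‖
      ≤ Multiset.card P.roots * (‖x‖ * R⁻¹)^2 := by
    apply norm_multiset_sum_le
    intro z hz
    rw [mem_roots hP] at hz
    have h3 : ‖z⁻¹ * x‖ = ‖x‖ * R⁻¹ := by
      rw [norm_mul, norm_inv, hroot z hz, mul_comm]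
    have h4 := aux_log (z := z⁻¹ * x) (by rw [h3]; exact hx)
    rw [h3] at h4
    exact h4
  exact h2.trans (mul_le_mul_of_nonneg_right (card_roots_le hb) (sq_nonneg _))


end

end Pool.Agent.H3
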