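import Mathlib
import Pool.Agent.H3.EulerG
import Pool.Agent.H3.EdgeB

/-!
# Convergence on the edge for Hasse-Weil L-functions

Let `X` be a smooth projective variety over `ℚ`, `i` a degree, `b = dim H^i`. By Deligne (1974) the
local polynomials of `L(X, s)` at the primes of good reduction have degree `b` and all their roots
have absolute value `p ^ (-i/2)`; at the finitely many other primes they are polynomials with
constant term one (for every choice of the auxiliary prime). So they form a `LocalFactors i b`, and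
there are only countably many pairs `(X, i)`. We show that, outside one set of real numbers `t` of
Hausdorff dimension zero, all their Euler products converge at `i/2 + 1 + i t` to non-zero numbers,
and these are the nontangential boundary values of the L-functions.
-/

open Complex Filter Topology Polynomial MeasureTheory
open scoped ENNReal NNReal

namespace Pool.Agent.Results.MP_039d94_nt.EdgeLimits

open Pool.Agent.H3

/-- Local factors of an L-function of weight `i` and degree at most `b`. For every prime `p` there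
is a polynomial `P p` with constant term `1`; at the primes outside the finite set `bad` it has
degree at most `b` and all its complex roots have absolute value `p ^ (-i/2)`. Nothing more is
assumed at the primes in `bad`. -/
structure LocalFactors (i b : ℕ) where
  P : ℕ → ℂ[X]
  bad : Finset ℕ
  coeff_zero : ∀ p, p.Prime → (P p).coeff 0 = 1
  natDegree_le : ∀ p, p.Prime → p ∉ bad → (P p).natDegree ≤ b
  pure : ∀ p, p.Prime → p ∉ bad → ∀ z : ℂ, (P p).eval z = 0 → ‖z‖ = (p : ℝ) ^ (-(i : ℝ) / 2)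

/-- The point `i/2 + 1 + t * I` of the edge `Re s = i/2 + 1` of the half plane of absolute
convergence. -/
noncomputable def pt (i : ℕ) (t : ℝ) : ℂ := (i : ℂ) / 2 + 1 + t * I

variable {i b : ℕ}

/-- The Euler factor at `p`. -/
noncomputable def LocalFactors.factor (V : LocalFactors i b) (p : ℕ) (s : ℂ) : ℂ :=
  ((V.P p).eval ((p : ℂ) ^ (-s)))⁻¹

/-- The L-function: the product of the Euler factors over all primes. -/
noncomputable def LocalFactors.L (V : LocalFactors i b) (s : ℂ) : ℂ :=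
  ∏' p : Nat.Primes, V.factor p s

/-- The sector with vertex `pt i t` and slope `K` to the right of the edge. -/
def sector (i : ℕ) (t K : ℝ) : Set ℂ :=
  {s | (i : ℝ) / 2 + 1 < s.re ∧ |s.im - t| ≤ K * (s.re - ((i : ℝ) / 2 + 1))}

lemma prime_pos' {p : ℕ} (hp : p.Prime) : (0:ℝ) < p := by exact_mod_cast hp.pos
lemma prime_two_le' {p : ℕ} (hp : p.Prime) : (2:ℝ) ≤ p := by exact_mod_cast hp.two_le

lemma V_ne_zero (V : LocalFactors i b) {p : ℕ} (hp : p.Prime) : V.P p ≠ 0 := by
  intro h0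
  have := V.coeff_zero p hp
  rw [h0] at this
  simp at this

/-- coefficient at `p` -/
noncomputable def cc (V : LocalFactors i b) (p : ℕ) : ℂ :=
  open Classical in if p ∈ V.bad then 0 else tr (V.P p) * (((p : ℝ) ^ (-(i : ℝ) / 2 - 1) : ℝ) : ℂ)

lemma norm_cc_le (V : LocalFactors i b) (p : ℕ) (hp : p.Prime) : ‖cc V p‖ ≤ b / p := by
  unfold cc
  have hp0 := prime_pos' hp
  split_ifs with h
  · rw [norm_zero]; positivity
  · have hR : 0 < (p : ℝ) ^ (-(i : ℝ) / 2) := Real.rpow_pos_of_pos hp0 _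
    have h1 := norm_tr_le (V.natDegree_le p hp h) hR (V_ne_zero V hp) (V.pure p hp h)
    have h2 : (p : ℝ) ^ (-(i : ℝ) / 2 - 1) = (p : ℝ) ^ (-(i : ℝ) / 2) / p := by
      rw [Real.rpow_sub hp0, Real.rpow_one]
    rw [norm_mul, Complex.norm_real, h2, Real.norm_of_nonneg (by positivity)]
    calc ‖tr (V.P p)‖ * ((p : ℝ) ^ (-(i : ℝ) / 2) / p) ≤ (b * ((p : ℝ) ^ (-(i : ℝ) / 2))⁻¹) * ((p : ℝ) ^ (-(i : ℝ) / 2) / p) :=
          mul_le_mul_of_nonneg_right h1 (by positivity)
      _ = b / p := by field_simp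

/-- argument -/
noncomputable def xa (i : ℕ) (t : ℝ) (w : ℂ) (p : ℕ) : ℂ := (p : ℂ) ^ (-(pt i t + w))

lemma ee_eq {p : ℕ} (hp : p.Prime) (t : ℝ) : ee p t = (p : ℂ) ^ (-(t * I)) := by
  have hp' : (p:ℂ) ≠ 0 := by exact_mod_cast hp.ne_zero
  rw [ee, Complex.cpow_def_of_ne_zero hp', ← Complex.natCast_log]
  congr 1
  ring

lemma xa_eq {p : ℕ} (hp : p.Prime) (t : ℝ) (w : ℂ) :
    xa i t w p = (((p : ℝ) ^ (-(i : ℝ) / 2 - 1) : ℝ) : ℂ) * ee p t * (p : ℂ) ^ (-w) := by
  have hp' : (p:ℂ) ≠ 0 := by exact_mod_cast hp.ne_zero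
  rw [xa, ee_eq hp, Complex.ofReal_cpow (prime_pos' hp).le, Complex.ofReal_natCast,
    ← Complex.cpow_add _ _ hp', ← Complex.cpow_add _ _ hp']
  congr 1
  rw [pt]; push_cast; ring

lemma norm_xa {p : ℕ} (hp : p.Prime) (t : ℝ) (w : ℂ) :
    ‖xa i t w p‖ * ((p : ℝ) ^ (-(i : ℝ) / 2))⁻¹ = (p : ℝ) ^ (-(1 + w.re)) := by
  have hp0 := prime_pos' hp
  have hR : 0 < (p : ℝ) ^ (-(i : ℝ) / 2) := Real.rpow_pos_of_pos hp0 _
  rw [xa_eq hp, norm_mul, norm_mul, norm_ee, mul_one, Complex.norm_real, Real.norm_of_nonneg (by positivity),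
    Complex.norm_natCast_cpow_of_pos hp.pos, Complex.neg_re, Real.rpow_sub hp0, Real.rpow_one,
    show -(1 + w.re) = -1 + -w.re by ring, Real.rpow_add hp0, Real.rpow_neg_one]
  field_simp

lemma rpow_le_half' {p : ℕ} (hp : p.Prime) {ε : ℝ} (hε : 0 ≤ ε) : (p:ℝ) ^ (-(1+ε)) ≤ 1/2 := by
  have h1 : (p:ℝ) ^ (-(1+ε)) ≤ (p:ℝ) ^ (-1:ℝ) :=
    Real.rpow_le_rpow_of_exponent_le (by linarith [prime_two_le' hp]) (by linarith)
  have h2 : (p:ℝ) ^ (-1:ℝ) ≤ 1/2 := by
    rw [Real.rpow_neg_one, one_div]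
    exact inv_anti₀ (by norm_num) (prime_two_le' hp)
  exact h1.trans h2

lemma sq_rpow_le' {p : ℕ} (hp : p.Prime) {ε : ℝ} (hε : 0 ≤ ε) :
    ((p:ℝ) ^ (-(1+ε)))^2 ≤ (p:ℝ) ^ (-2:ℝ) := by
  rw [← Real.rpow_natCast, ← Real.rpow_mul (prime_pos' hp).le]
  apply Real.rpow_le_rpow_of_exponent_le (by linarith [prime_two_le' hp])
  push_cast; linarith

/-- logarithm of the good factor, `0` at bad primes -/
noncomputable def GG (V : LocalFactors i b) (t : ℝ) (w : ℂ) (p : ℕ) : ℂ :=
  open Classical in if p ∈ V.bad then 0 else G (V.P p) (xa i t w p)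

/-- linear term -/
noncomputable def aa (V : LocalFactors i b) (t : ℝ) (w : ℂ) (p : ℕ) : ℂ := cc V p * ee p t * (p : ℂ) ^ (-w)

/-- remainder -/
noncomputable def RR (V : LocalFactors i b) (t : ℝ) (w : ℂ) (p : ℕ) : ℂ := GG V t w p - aa V t w p

lemma norm_RR_le (V : LocalFactors i b) (t : ℝ) {w : ℂ} (hw : 0 ≤ w.re) {p : ℕ} (hp : p.Prime) :
    ‖RR V t w p‖ ≤ b * (p : ℝ) ^ (-2:ℝ) := by
  unfold RR GG aa cc
  split_ifs with h
  · simp only [zero_mul, sub_zero, norm_zero]
    positivity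
  · have h1 := norm_xa (i := i) hp t w
    have h2 : ‖xa i t w p‖ * ((p : ℝ) ^ (-(i : ℝ) / 2))⁻¹ ≤ 1/2 := by
      rw [h1]; exact rpow_le_half' hp hw
    have h3 := norm_G_sub_le (V.natDegree_le p hp h) (V_ne_zero V hp) (V.pure p hp h) h2
    have h4 : tr (V.P p) * (((p : ℝ) ^ (-(i : ℝ) / 2 - 1) : ℝ) : ℂ) * ee p t * (p : ℂ) ^ (-w)
        = tr (V.P p) * xa i t w p := by
      rw [xa_eq hp]; ring
    rw [h4]
    refine h3.trans ?_
    apply mul_le_mul_of_nonneg_left _ (Nat.cast_nonneg b)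
    rw [h1]
    exact sq_rpow_le' hp hw

lemma tendsto_xa {p : ℕ} (hp : p.Prime) (t : ℝ) (F : Filter ℂ) (hF : F ≤ 𝓝 0) :
    Tendsto (fun w => xa i t w p) F (𝓝 (xa i t 0 p)) := by
  have hp' : (p:ℂ) ≠ 0 := by exact_mod_cast hp.ne_zero
  have h1 : Continuous (fun w : ℂ => xa i t w p) := by
    unfold xa
    exact Continuous.const_cpow (by fun_prop) (Or.inl hp')
  exact (h1.tendsto 0).mono_left hF

lemma tendsto_GG (V : LocalFactors i b) {p : ℕ} (hp : p.Prime) (t : ℝ) (F : Filter ℂ) (hF : F ≤ 𝓝 0) :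
    Tendsto (fun w => GG V t w p) F (𝓝 (GG V t 0 p)) := by
  unfold GG
  split_ifs with h
  · exact tendsto_const_nhds
  · unfold G
    apply tendsto_multiset_sum
    intro z hz
    have hz' : ‖z‖ = (p : ℝ) ^ (-(i : ℝ) / 2) := by
      apply V.pure p hp h
      rw [mem_roots (V_ne_zero V hp)] at hz
      exact hz
    have h1 : Tendsto (fun w => 1 - z⁻¹ * xa i t w p) F (𝓝 (1 - z⁻¹ * xa i t 0 p)) :=
      ((tendsto_xa hp t F hF).const_mul _).const_sub 1
    refine (h1.clog ?_).neg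
    have h2 : ‖z⁻¹ * xa i t 0 p‖ ≤ 1/2 := by
      rw [norm_mul, norm_inv, hz', mul_comm, norm_xa hp]
      exact rpow_le_half' hp (by simp)
    rw [Complex.mem_slitPlane_iff]
    left
    have := Complex.abs_re_le_norm (z⁻¹ * xa i t 0 p)
    have := (abs_le.mp this).2
    rw [Complex.sub_re, Complex.one_re]
    linarith

lemma tendsto_aa (V : LocalFactors i b) {p : ℕ} (hp : p.Prime) (t : ℝ) (F : Filter ℂ) (hF : F ≤ 𝓝 0) :
    Tendsto (fun w => aa V t w p) F (𝓝 (aa V t 0 p)) := by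
  have hp' : (p:ℂ) ≠ 0 := by exact_mod_cast hp.ne_zero
  have h1 : Continuous (fun w : ℂ => aa V t w p) := by
    unfold aa
    refine continuous_const.mul ?_
    exact Continuous.const_cpow (by fun_prop) (Or.inl hp')
  exact (h1.tendsto 0).mono_left hF

lemma summable_sq' : Summable (fun p : Nat.Primes => (p : ℝ) ^ (-2 : ℝ)) :=
  Nat.Primes.summable_rpow.mpr (by norm_num)

lemma summable_RR (V : LocalFactors i b) (t : ℝ) {w : ℂ} (hw : 0 ≤ w.re) :
    Summable (fun p : Nat.Primes => RR V t w p) :=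
  Summable.of_norm_bounded (summable_sq'.mul_left (b:ℝ)) (fun p => norm_RR_le V t hw p.prop)

lemma tendsto_tsum_RR (V : LocalFactors i b) (t : ℝ) (F : Filter ℂ) (hF : F ≤ 𝓝 0)
    (hF2 : ∀ᶠ w in F, 0 ≤ w.re) :
    Tendsto (fun w => ∑' p : Nat.Primes, RR V t w p) F (𝓝 (∑' p : Nat.Primes, RR V t 0 p)) := by
  apply tendsto_tsum_of_dominated_convergence (bound := fun p : Nat.Primes => b * (p : ℝ) ^ (-2:ℝ))
    (summable_sq'.mul_left (b:ℝ))
  · intro p
    exact (tendsto_GG V p.prop t F hF).sub (tendsto_aa V p.prop t F hF)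
  · filter_upwards [hF2] with w hw p
    exact norm_RR_le V t hw p.prop

lemma norm_aa_le (V : LocalFactors i b) (t : ℝ) (w : ℂ) {p : ℕ} (hp : p.Prime) :
    ‖aa V t w p‖ ≤ b * (p : ℝ) ^ (-(1 + w.re)) := by
  have hp0 := prime_pos' hp
  unfold aa
  rw [norm_mul, norm_mul, norm_ee, mul_one, Complex.norm_natCast_cpow_of_pos hp.pos, Complex.neg_re,
    show -(1 + w.re) = -1 + -w.re by ring, Real.rpow_add hp0, Real.rpow_neg_one]
  calc ‖cc V p‖ * (p:ℝ) ^ (-w.re) ≤ (b / p) * (p:ℝ) ^ (-w.re) :=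
        mul_le_mul_of_nonneg_right (norm_cc_le V p hp) (by positivity)
    _ = _ := by ring

lemma summable_aa (V : LocalFactors i b) (t : ℝ) {w : ℂ} (hw : 0 < w.re) :
    Summable (fun p : Nat.Primes => aa V t w p) := by
  have h1 : Summable (fun p : Nat.Primes => (p : ℝ) ^ (-(1+w.re))) :=
    Nat.Primes.summable_rpow.mpr (by linarith)
  exact Summable.of_norm_bounded (h1.mul_left (b:ℝ)) (fun p => norm_aa_le V t w p.prop)

lemma term_gg (V : LocalFactors i b) (t : ℝ) (w : ℂ) :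
    LSeries.term (gg (cc V) t) w = Set.indicator {p : ℕ | p.Prime} (fun p => aa V t w p) := by
  funext n
  rw [LSeries.term_def, gg]
  by_cases hn : n.Prime
  · rw [Set.indicator_of_mem (show n ∈ {p : ℕ | p.Prime} from hn), if_pos hn, if_neg hn.ne_zero, aa,
      Complex.cpow_neg]
    rfl
  · rw [Set.indicator_of_notMem (show n ∉ {p : ℕ | p.Prime} from hn), if_neg hn]
    simp

lemma LSeriesSummable_gg (V : LocalFactors i b) (t : ℝ) {w : ℂ} (hw : 0 < w.re) :
    LSeriesSummable (gg (cc V) t) w := by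
  rw [LSeriesSummable, term_gg]
  exact summable_subtype_iff_indicator.mp (summable_aa V t hw)

lemma LSeries_gg (V : LocalFactors i b) (t : ℝ) (w : ℂ) :
    LSeries (gg (cc V) t) w = ∑' p : Nat.Primes, aa V t w p := by
  rw [LSeries, term_gg]
  exact (tsum_subtype {p : ℕ | p.Prime} (fun p => aa V t w p)).symm

lemma summable_GG (V : LocalFactors i b) (t : ℝ) {w : ℂ} (hw : 0 < w.re) :
    Summable (fun p : Nat.Primes => GG V t w p) := by
  have := (summable_RR V t hw.le).add (summable_aa V t hw)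
  refine this.congr fun p => ?_
  rw [RR]; ring

/-- bad primes as primes -/
noncomputable def badP (V : LocalFactors i b) : Finset Nat.Primes :=
  V.bad.preimage (fun p : Nat.Primes => (p : ℕ)) (fun _ _ _ _ h => Subtype.ext h)

lemma mem_badP (V : LocalFactors i b) (p : Nat.Primes) : p ∈ badP V ↔ (p : ℕ) ∈ V.bad :=
  Finset.mem_preimage

lemma exp_GG (V : LocalFactors i b) (t : ℝ) {w : ℂ} (hw : 0 ≤ w.re) {p : ℕ} (hp : p.Prime) (hb : p ∉ V.bad) :
    Complex.exp (GG V t w p) = V.factor p (pt i t + w) := by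
  rw [GG, if_neg hb, LocalFactors.factor]
  apply exp_G (V.coeff_zero p hp) (V.pure p hp hb)
  rw [norm_xa hp]
  exact rpow_le_half' hp hw

/-- product formula -/
lemma L_eq (V : LocalFactors i b) (t : ℝ) {w : ℂ} (hw : 0 < w.re) : V.L (pt i t + w) =
      Complex.exp (∑' p : Nat.Primes, GG V t w p) * ∏ p ∈ badP V, V.factor p (pt i t + w) := by
  have h1 := (summable_GG V t hw).hasSum.cexp
  classical
  set h : Nat.Primes → ℂ := fun p => if p ∈ badP V then V.factor p (pt i t + w) else 1 with hh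
  have h2 : HasProd h (∏ p ∈ badP V, h p) := by
    apply hasProd_prod_of_ne_finset_one
    intro p hp
    rw [hh]
    simp only
    rw [if_neg hp]
  have h3 : ∏ p ∈ badP V, h p = ∏ p ∈ badP V, V.factor p (pt i t + w) := by
    apply Finset.prod_congr rfl
    intro p hp
    rw [hh]
    simp only
    rw [if_pos hp]
  rw [h3] at h2
  have h4 := h1.mul h2
  have h5 : (fun p : Nat.Primes => (Complex.exp ∘ fun p : Nat.Primes => GG V t w p) p * h p)
      = fun p : Nat.Primes => V.factor p (pt i t + w) := by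
    funext p
    rw [hh]
    simp only [Function.comp_apply]
    by_cases hp : (p : ℕ) ∈ V.bad
    · rw [if_pos ((mem_badP V p).mpr hp), GG, if_pos hp, Complex.exp_zero, one_mul]
    · rw [if_neg (fun h => hp ((mem_badP V p).mp h)), mul_one, exp_GG V t hw.le p.prop hp]
  rw [h5] at h4
  exact h4.tprod_eq

/-- the bad factors are finite at `pt i t` -/
def BadOK (V : LocalFactors i b) (t : ℝ) : Prop :=
  ∀ p ∈ V.bad, p.Prime → (V.P p).eval ((p : ℂ) ^ (-(pt i t))) ≠ 0

lemma tendsto_badprod (V : LocalFactors i b) {t : ℝ} (hbad : BadOK V t) (F : Filter ℂ) (hF : F ≤ 𝓝 0) :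
    Tendsto (fun w => ∏ p ∈ badP V, V.factor p (pt i t + w)) F (𝓝 (∏ p ∈ badP V, V.factor p (pt i t))) := by
  apply tendsto_finsetProd
  intro p hp
  have h0 := hbad p ((mem_badP V p).mp hp) p.prop
  have h1 := tendsto_xa (i := i) p.prop t F hF
  have h2 := ((V.P p).continuous.tendsto _).comp h1
  have h3 : xa i t 0 p = (p : ℂ) ^ (-(pt i t)) := by rw [xa, add_zero]
  rw [h3] at h2
  exact h2.inv₀ h0

lemma badprod_ne_zero (V : LocalFactors i b) {t : ℝ} (hbad : BadOK V t) :
    ∏ p ∈ badP V, V.factor p (pt i t) ≠ 0 := by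
  rw [Finset.prod_ne_zero_iff]
  intro p hp
  exact inv_ne_zero (hbad p ((mem_badP V p).mp hp) p.prop)

lemma SS_eq (V : LocalFactors i b) (t : ℝ) (N : ℕ) :
    SS (cc V) t N = ∑ p ∈ N.primesBelow, aa V t 0 p := by
  rw [SS, sum_gg, ZZ, Nat.primesBelow]
  apply Finset.sum_congr rfl
  intro p _
  rw [aa, neg_zero, Complex.cpow_zero, mul_one]

lemma partial_prod (V : LocalFactors i b) (t : ℝ) (N : ℕ) (hN : ∀ p ∈ V.bad, p < N) :
    ∏ p ∈ N.primesBelow, V.factor p (pt i t)
      = Complex.exp (SS (cc V) t N + ∑ p ∈ N.primesBelow, RR V t 0 p) * ∏ p ∈ badP V, V.factor p (pt i t) := by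
  classical
  have h1 : SS (cc V) t N + ∑ p ∈ N.primesBelow, RR V t 0 p = ∑ p ∈ N.primesBelow, GG V t 0 p := by
    rw [SS_eq, ← Finset.sum_add_distrib]
    apply Finset.sum_congr rfl
    intro p _
    rw [RR]; ring
  rw [h1, Complex.exp_sum]
  have h2 : ∏ p ∈ badP V, V.factor p (pt i t) = ∏ p ∈ N.primesBelow, (if p ∈ V.bad then V.factor p (pt i t) else 1) := by
    rw [← Finset.prod_filter]
    apply Finset.prod_bij (fun (p : Nat.Primes) _ => (p : ℕ))
    · intro p hp
      rw [mem_badP] at hp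
      rw [Finset.mem_filter, Nat.mem_primesBelow]
      exact ⟨⟨hN _ hp, p.prop⟩, hp⟩
    · intro p _ q _ h
      exact Subtype.ext h
    · intro p hp
      rw [Finset.mem_filter, Nat.mem_primesBelow] at hp
      exact ⟨⟨p, hp.1.2⟩, (mem_badP V _).mpr hp.2, rfl⟩
    · intro p _
      rfl
  rw [h2, ← Finset.prod_mul_distrib]
  apply Finset.prod_congr rfl
  intro p hp
  have hpp := Nat.prime_of_mem_primesBelow hp
  by_cases hb : p ∈ V.bad
  · rw [if_pos hb, GG, if_pos hb, Complex.exp_zero, one_mul]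
  · rw [if_neg hb, mul_one, exp_GG V t (by simp) hpp hb, add_zero]

lemma tendsto_sum_RR (V : LocalFactors i b) (t : ℝ) :
    Tendsto (fun N : ℕ => ∑ p ∈ N.primesBelow, RR V t 0 p) atTop (𝓝 (∑' p : Nat.Primes, RR V t 0 p)) := by
  have h1 := (summable_RR V t (w := 0) (by simp)).hasSum
  have h2 : HasSum (Set.indicator {p : ℕ | p.Prime} (fun p => RR V t 0 p)) (∑' p : Nat.Primes, RR V t 0 p) :=
    hasSum_subtype_iff_indicator.mp h1
  refine h2.tendsto_sum_nat.congr fun N => ?_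
  rw [Nat.primesBelow, Finset.sum_filter]
  apply Finset.sum_congr rfl
  intro n _
  by_cases hn : n.Prime
  · rw [if_pos hn, Set.indicator_of_mem (show n ∈ {p : ℕ | p.Prime} from hn)]
  · rw [if_neg hn, Set.indicator_of_notMem (show n ∉ {p : ℕ | p.Prime} from hn)]

lemma sum_Icc_gg (c : ℕ → ℂ) (t : ℝ) (n : ℕ) : ∑ k ∈ Finset.Icc 1 n, gg c t k = SS c t (n+1) := by
  rw [SS, Finset.range_eq_Ico, Finset.sum_eq_sum_Ico_succ_bot (Nat.succ_pos n)]
  have h1 : gg c t 0 = 0 := by rw [gg, if_neg Nat.not_prime_zero]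
  rw [h1, zero_add]
  rfl

lemma main_one (V : LocalFactors i b) {t : ℝ} (hgood : Good (cc V) t) (hbad : BadOK V t) :
    ∃ c : ℂ, c ≠ 0 ∧
      Tendsto (fun N : ℕ => ∏ p ∈ N.primesBelow, V.factor p (pt i t)) atTop (𝓝 c) ∧
      ∀ K : ℝ, Tendsto V.L (𝓝[sector i t K] (pt i t)) (𝓝 c) := by
  obtain ⟨ℓ, hℓ⟩ := tendsto_of_good (cc V) (Nat.cast_nonneg b) (norm_cc_le V) hgood
  set R0 : ℂ := ∑' p : Nat.Primes, RR V t 0 p with hR0
  refine ⟨Complex.exp (ℓ + R0) * ∏ p ∈ badP V, V.factor p (pt i t),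
    mul_ne_zero (Complex.exp_ne_zero _) (badprod_ne_zero V hbad), ?_, ?_⟩
  · have h1 := (((hℓ.add (tendsto_sum_RR V t)).cexp).mul_const (∏ p ∈ badP V, V.factor p (pt i t)))
    refine h1.congr' ?_
    filter_upwards [Filter.eventually_gt_atTop (V.bad.sup id)] with N hN
    exact (partial_prod V t N (fun p hp => lt_of_le_of_lt (Finset.le_sup (f := id) hp) hN)).symm
  · intro K
    set reg : Set ℂ := {w : ℂ | 0 < w.re ∧ |w.im| ≤ K * w.re} with hreg
    have habel := abel_stolz (gg (cc V) t) (fun w hw => LSeriesSummable_gg V t hw)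
      (by
        refine (hℓ.comp (tendsto_add_atTop_nat 1)).congr fun n => ?_
        exact (sum_Icc_gg _ _ _).symm) K
    have hle : 𝓝[reg] (0:ℂ) ≤ 𝓝 0 := nhdsWithin_le_nhds
    have hpos : ∀ᶠ w in 𝓝[reg] (0:ℂ), 0 < w.re := by
      filter_upwards [self_mem_nhdsWithin] with w hw
      exact hw.1
    have hR := tendsto_tsum_RR V t (𝓝[reg] (0:ℂ)) hle (hpos.mono fun w hw => hw.le)
    have hB := tendsto_badprod V hbad (𝓝[reg] (0:ℂ)) hle
    have h1 : Tendsto (fun w => V.L (pt i t + w)) (𝓝[reg] (0:ℂ))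
        (𝓝 (Complex.exp (ℓ + R0) * ∏ p ∈ badP V, V.factor p (pt i t))) := by
      refine (((habel.add hR).cexp).mul hB).congr' ?_
      filter_upwards [hpos] with w hw
      rw [L_eq V t hw, LSeries_gg, ← (summable_aa V t hw).tsum_add (summable_RR V t hw.le)]
      congr 2
      apply tsum_congr
      intro p
      rw [RR]; ring
    have h2 : Tendsto (fun s : ℂ => s - pt i t) (𝓝[sector i t K] (pt i t)) (𝓝[reg] (0:ℂ)) := by
      rw [tendsto_nhdsWithin_iff]
      constructor
      · have h3 : Tendsto (fun s : ℂ => s - pt i t) (𝓝 (pt i t)) (𝓝 (pt i t - pt i t)) :=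
          (continuous_sub_right (pt i t)).tendsto _
        rw [sub_self] at h3
        exact h3.mono_left nhdsWithin_le_nhds
      · filter_upwards [self_mem_nhdsWithin] with s hs
        obtain ⟨hs1, hs2⟩ := hs
        have e1 : (s - pt i t).re = s.re - ((i:ℝ)/2 + 1) := by simp [pt]
        have e2 : (s - pt i t).im = s.im - t := by simp [pt]
        refine ⟨?_, ?_⟩
        · rw [e1]; linarith
        · rw [e1, e2]; exact hs2
    refine (h1.comp h2).congr fun s => ?_
    simp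

lemma countable_bad (V : LocalFactors i b) : {t : ℝ | ¬ BadOK V t}.Countable := by
  have hsub : {t : ℝ | ¬ BadOK V t} ⊆ ⋃ p ∈ {p : ℕ | p.Prime}, ⋃ z ∈ {z : ℂ | z ∈ (V.P p).roots},
      {t : ℝ | (p : ℂ) ^ (-(pt i t)) = z} := by
    intro t ht
    rw [Set.mem_ofPred_eq, BadOK] at ht
    push Not at ht
    obtain ⟨p, _, hpp, h⟩ := ht
    simp only [Set.mem_iUnion]
    refine ⟨p, hpp, (p : ℂ) ^ (-(pt i t)), ?_, rfl⟩
    rw [Set.mem_ofPred_eq, mem_roots (V_ne_zero V hpp)]
    exact h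
  refine Set.Countable.mono hsub ?_
  apply Set.Countable.biUnion (Set.to_countable _)
  intro p hp
  have hpp : p.Prime := hp
  apply Set.Countable.biUnion
  · exact (Multiset.finite_toSet _).countable
  intro z _
  rcases Set.eq_empty_or_nonempty {t : ℝ | (p : ℂ) ^ (-(pt i t)) = z} with h | ⟨t0, ht0⟩
  · rw [h]; exact Set.countable_empty
  have hlog : Real.log p ≠ 0 := (Real.log_pos (by exact_mod_cast hpp.one_lt)).ne'
  have hp' : (p:ℂ) ≠ 0 := by exact_mod_cast hpp.ne_zero
  apply Set.Countable.mono _ (Set.countable_range (fun n : ℤ => t0 - 2 * Real.pi * n / Real.log p))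
  intro t ht
  rw [Set.mem_ofPred_eq] at ht ht0
  have h1 : (p : ℂ) ^ (-(pt i t)) = (p : ℂ) ^ (-(pt i t0)) := by rw [ht, ht0]
  rw [Complex.cpow_def_of_ne_zero hp', Complex.cpow_def_of_ne_zero hp', Complex.exp_eq_exp_iff_exists_int] at h1
  obtain ⟨n, hn⟩ := h1
  refine ⟨n, ?_⟩
  simp only
  have h2 : (Real.log p : ℝ) * (t0 - t) = 2 * Real.pi * n := by
    rw [← Complex.natCast_log, pt, pt] at hn
    have h4 : ((Real.log p * (t0 - t) : ℝ) : ℂ) * I = ((2 * Real.pi * n : ℝ) : ℂ) * I := by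
      rw [Complex.ofReal_mul, Complex.ofReal_mul, Complex.ofReal_mul, Complex.ofReal_sub,
        Complex.ofReal_ofNat, Complex.ofReal_intCast]
      linear_combination hn
    have h5 := mul_right_cancel₀ Complex.I_ne_zero h4
    exact_mod_cast h5
  field_simp
  linarith

/-- **Edge of convergence.** For countably many systems of local factors there is one set `E` of
real numbers, of Hausdorff dimension zero, such that for all `t` outside `E` and every system the
Euler product converges at `i/2 + 1 + i t` to a non-zero number, which is also the nontangential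
limit of the L-function there. -/
theorem result {ι : Type} [Countable ι] (i b : ι → ℕ) (V : ∀ k, LocalFactors (i k) (b k)) :
    ∃ E : Set ℝ, dimH E = 0 ∧ ∀ t ∉ E, ∀ k, ∃ c : ℂ, c ≠ 0 ∧
      Tendsto (fun N : ℕ => ∏ p ∈ N.primesBelow, (V k).factor p (pt (i k) t)) atTop (𝓝 c) ∧
      ∀ K : ℝ, Tendsto (V k).L (𝓝[sector (i k) t K] (pt (i k) t)) (𝓝 c) := by
  refine ⟨⋃ k, ({t : ℝ | ¬ Good (cc (V k)) t} ∪ {t : ℝ | ¬ BadOK (V k) t}), ?_, ?_⟩
  · rw [dimH_iUnion]
    have h1 : ∀ k, dimH ({t : ℝ | ¬ Good (cc (V k)) t} ∪ {t : ℝ | ¬ BadOK (V k) t}) = 0 := by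
      intro k
      rw [dimH_union, dimH_bad (cc (V k)) (Nat.cast_nonneg (b k)) (norm_cc_le (V k)),
        (countable_bad (V k)).dimH_zero, max_self]
    simp [h1]
  · intro t ht k
    rw [Set.mem_iUnion] at ht
    push Not at ht
    have h1 := ht k
    rw [Set.mem_union, not_or] at h1
    obtain ⟨h2, h3⟩ := h1
    rw [Set.mem_ofPred_eq, not_not] at h2 h3
    exact main_one (V k) h2 h3

end Pool.Agent.Results.MP_039d94_nt.EdgeLimits
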